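import Pool.Agent.R841.TD.Dim

/-! Admissible maps of a tridiagonal pair: maps preserving the eigenspaces of `A` and reversing the
flag of `A*`. -/

set_option autoImplicit false

namespace Pool.Agent.U50.TDA

open Polynomial Module Pool.Agent.Helper9.TD Pool.Agent.R841.TD

variable {K : Type*} [Field K] {V : Type*} [AddCommGroup V] [Module K V]

/-- `L'_j = (V*_d + ⋯ + V*_{d-j}) ∩ (V_j + ⋯ + V_{d-j})`. -/
def Low' (A B : Module.End K V) (d : ℕ) (a b : ℕ → K) (j : ℕ) : Submodule K V :=
  (⨆ (i : ℕ) (_ : i ≤ d ∧ d ≤ i + j), B.eigenspace (b i)) ⊓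
    (⨆ (i : ℕ) (_ : j ≤ i ∧ i + j ≤ d), A.eigenspace (a i))

/-- `S V_i = V_i` and `S (V*_0 + ⋯ + V*_i) = V*_d + ⋯ + V*_{d-i}` for `0 ≤ i ≤ d`. -/
def Admissible (A B : Module.End K V) (d : ℕ) (a b : ℕ → K) (S : Module.End K V) : Prop :=
  ∀ i ≤ d, (A.eigenspace (a i)).map S = A.eigenspace (a i) ∧
    (⨆ (k : ℕ) (_ : k ≤ i), B.eigenspace (b k)).map S =
      ⨆ (k : ℕ) (_ : k ≤ d ∧ d ≤ k + i), B.eigenspace (b k)

variable {A B : Module.End K V} {d : ℕ} {a b b' : ℕ → K} {P Q Q' : ℕ → Module.End K V}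
  {S : Module.End K V}

theorem Low'_eq (iA : Idem A d a P) (iB : Idem B d b Q) :
    Low' A B d a b = LW d P (fun i => Q (d - i)) := by
  funext j
  ext v
  rw [Low', Submodule.mem_inf, mem_iSup_iff iB _ (fun k hk => hk.1) v,
    mem_iSup_iff iA _ (fun k hk => by omega) v, mem_LW]
  constructor
  · rintro ⟨h1, h2⟩
    exact ⟨fun k hk hjk => h1 (d - k) (by omega) (by omega), fun k hk hjk => h2 k hk (by omega),
      fun k hk hjk => h2 (d - k) (by omega) (by omega)⟩
  · rintro ⟨h1, h2, h3⟩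
    refine ⟨fun k hk hjk => ?_, fun k hk hjk => ?_⟩
    · have h4 : Q (d - (d - k)) v = 0 := h1 (d - k) (by omega) (by omega)
      rwa [Nat.sub_sub_self hk] at h4
    · by_cases hkj : k < j
      · exact h2 k hk hkj
      · have := h3 (d - k) (by omega) (by omega)
        rwa [Nat.sub_sub_self hk] at this

theorem A_str (A : Module.End K V) (a : ℕ → K) (j s : ℕ) (v : V) :
    A (aeval A (str a j s) v) = aeval A (str a j (s + 1)) v + a (j + s) • aeval A (str a j s) v := by
  rw [str_succ, mul_comm, map_mul, Module.End.mul_apply]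
  simp only [map_sub, aeval_X, aeval_C, LinearMap.sub_apply, Module.algebraMap_end_apply,
    sub_add_cancel]

/-- strings end -/
theorem str_top (iA : Idem A d a P) (j : ℕ) (hj : 2 * j ≤ d) (q : V) (hq : q ∈ LW d P Q j) :
    aeval A (str a j (d - 2 * j + 1)) q = 0 := by
  refine iA.eq_zero _ fun k hk => ?_
  rw [P_aeval iA k hk]
  by_cases hkj : k < j
  · rw [(mem_LW.mp hq).2.1 k hk hkj, smul_zero]
  · by_cases hkd : d - j < k
    · rw [LW_P hq k hk hkd, smul_zero]
    · rw [str_eval, Finset.prod_eq_zero (i := k - j) (Finset.mem_range.mpr (by omega)), zero_smul]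
      rw [show j + (k - j) = k by omega, sub_self]

theorem comm_aeval (hS : ∀ v, S (A v) = A (S v)) (p : K[X]) (v : V) :
    S (aeval A p v) = aeval A p (S v) := by
  induction p using Polynomial.induction_on' with
  | add p q hp hq => simp only [map_add, LinearMap.add_apply, hp, hq]
  | monomial n c =>
    rw [aeval_monomial]
    have hn : ∀ n : ℕ, S ((A ^ n) v) = (A ^ n) (S v) := by
      intro n
      induction n with
      | zero => simp
      | succ n ih => rw [pow_succ', Module.End.mul_apply, hS, ih, Module.End.mul_apply]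
    rw [Module.End.mul_apply, Module.End.mul_apply, Module.algebraMap_end_apply,
      Module.algebraMap_end_apply, map_smul, hn]

theorem comm_P (iA : Idem A d a P) (hS : ∀ v, S (A v) = A (S v)) (k : ℕ) (hk : k ≤ d) (v : V) :
    P k (S v) = S (P k v) := by
  have h1 : ∀ i ∈ Finset.range (d + 1), P k (S (P i v)) = if k = i then S (P k v) else 0 := by
    intro i hi
    have hi' : i ≤ d := by simpa [Nat.lt_succ_iff] using hi
    have h2 : A (S (P i v)) = a i • S (P i v) := by
      rw [← hS, iA.eig i hi', map_smul]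
    have h3 := iA.mem i hi' _ h2
    rw [← h3, iA.orth k hk i hi']
    split_ifs with hh
    · subst hh; exact h3
    · rfl
  have h4 : P k (S v) = P k (S (∑ i ∈ Finset.range (d + 1), P i v)) := by rw [iA.sum]
  rw [h4, map_sum, map_sum, Finset.sum_congr rfl h1, Finset.sum_ite_eq,
    if_pos (Finset.mem_range.mpr (by omega))]

/-- The flag is spanned by the strings. -/
theorem FI_le (h : Sys A B d a P d b Q) (W : Submodule K V) (i : ℕ)
    (hW : ∀ j s, 2 * j + s ≤ d → j + s ≤ i → ∀ q ∈ LW d P Q j, aeval A (str a j s) q ∈ W) :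
    ∀ v, (∀ k ≤ d, i < k → Q k v = 0) → v ∈ W := by
  have hU : ∀ l ≤ d, l ≤ i → ∀ v ∈ NN d P d Q l l, v ∈ W := by
    intro l hl hli v hv
    obtain ⟨q, hq, hqe⟩ := Sys.gen h l hl v hv
    rw [hqe]
    refine Submodule.sum_mem _ fun j hj => ?_
    rw [Finset.mem_filter, Finset.mem_range] at hj
    exact hW j (l - j) (by omega) (by omega) (q j) (hq j)
  have key : ∀ l ≤ i, ∀ v, (∀ k ≤ d, l < k → Q k v = 0) → v ∈ W := by
    intro l
    induction l with
    | zero =>
      intro hl v hv
      exact hU 0 (by omega) hl v (mem_NN.mpr ⟨hv, fun k _ hk => by omega⟩)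
    | succ l ih =>
      intro hl v hv
      obtain ⟨u, w, huw, hu, hw⟩ := Sys.split h l v
      rw [huw]
      refine W.add_mem (ih (by omega) u hu) ?_
      by_cases hd : l + 1 ≤ d
      · refine hU (l + 1) hd hl w (mem_NN.mpr ⟨fun k hk hlk => ?_, hw⟩)
        have : w = v - u := by rw [huw]; abel
        rw [this, map_sub, hv k hk hlk, hu k hk (by omega), sub_zero]
      · have : w = 0 := h.iA.eq_zero w fun k hk => hw k hk (by omega)
        rw [this]
        exact W.zero_mem
  exact key i le_rfl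

/-- Linear maps `L_j → L'_j` extend to a map commuting with `A`. -/
theorem exists_ext_map (h : Sys A B d a P d b Q)
    (σ : ∀ j, LW d P Q j →ₗ[K] LW d P Q' j) :
    ∃ S : Module.End K V, (∀ v, S (A v) = A (S v)) ∧
      ∀ j s, 2 * j + s ≤ d → ∀ q : LW d P Q j,
        S (aeval A (str a j s) (q : V)) = aeval A (str a j s) (σ j q : V) := by
  obtain ⟨S, hS⟩ := Sys.exists_map h (W := V) (fun j s =>
    aeval A (str a j s) ∘ₗ (LW d P Q' j).subtype ∘ₗ σ j)
  have hS' : ∀ j s, 2 * j + s ≤ d → ∀ q : LW d P Q j,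
      S (aeval A (str a j s) (q : V)) = aeval A (str a j s) (σ j q : V) :=
    fun j s hjs q => hS j s hjs q
  refine ⟨S, ?_, hS'⟩
  have h1 : S ∘ₗ A = A ∘ₗ S := by
    refine Sys.map_ext h _ _ fun j s hjs q hq => ?_
    rw [LinearMap.comp_apply, LinearMap.comp_apply, A_str, map_add, map_smul,
      hS' j s hjs ⟨q, hq⟩, A_str]
    congr 1
    by_cases hs : 2 * j + (s + 1) ≤ d
    · exact hS' j (s + 1) hs ⟨q, hq⟩
    · have hs' : s = d - 2 * j := by omega
      rw [hs', str_top h.iA j (by omega) q hq, map_zero,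
        str_top h.iA j (by omega) _ (σ j ⟨q, hq⟩).2]
  exact fun v => LinearMap.congr_fun h1 v

/-- The extension maps the flag into the other flag. -/
theorem ext_flag (h : Sys A B d a P d b Q) (h' : Sys A B d a P d b' Q')
    (σ : ∀ j, LW d P Q j →ₗ[K] LW d P Q' j)
    (hS : ∀ j s, 2 * j + s ≤ d → ∀ q : LW d P Q j,
        S (aeval A (str a j s) (q : V)) = aeval A (str a j s) (σ j q : V)) (i : ℕ) (v : V)
    (hv : ∀ k ≤ d, i < k → Q k v = 0) : ∀ k ≤ d, i < k → Q' k (S v) = 0 := by
  let W : Submodule K V :=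
    { carrier := {v | ∀ k ≤ d, i < k → Q' k (S v) = 0}
      add_mem' := by
        intro x y h1 h2 k hk hik
        rw [map_add, map_add, h1 k hk hik, h2 k hk hik, add_zero]
      zero_mem' := fun k _ _ => by rw [map_zero, map_zero]
      smul_mem' := by
        intro c x h1 k hk hik
        rw [map_smul, map_smul, h1 k hk hik, smul_zero] }
  have h1 := FI_le h W i (fun j s hjs hi q hq k hk hik => by
    rw [hS j s hjs ⟨q, hq⟩]
    exact (mem_NN.mp (Sys.aeval_mem h' j s _ (Submodule.mem_inf.mp (σ j ⟨q, hq⟩).2).1)).1 k hk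
      (by omega)) v hv
  exact h1

/-- A map commuting with `A` and respecting the flags maps `L_j` into `L'_j`. -/
theorem LW_image (iA : Idem A d a P) (hS : ∀ v, S (A v) = A (S v))
    (hF : ∀ i ≤ d, ∀ v, (∀ k ≤ d, i < k → Q k v = 0) → ∀ k ≤ d, i < k → Q' k (S v) = 0)
    (j : ℕ) (q : V) (hq : q ∈ LW d P Q j) : S q ∈ LW d P Q' j := by
  rw [mem_LW] at hq ⊢
  refine ⟨fun k hk hjk => hF j (by omega) q hq.1 k hk hjk, fun k hk hkj => ?_,
    fun k hk hkj => ?_⟩
  · rw [comm_P iA hS k hk, hq.2.1 k hk hkj, map_zero]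
  · rw [comm_P iA hS (d - k) (by omega), hq.2.2 k hk hkj, map_zero]

/-- The projection form of admissibility. -/
structure Adm (A : Module.End K V) (d : ℕ) (Q Q' : ℕ → Module.End K V) (S T : Module.End K V) :
    Prop where
  comm : ∀ v, S (A v) = A (S v)
  comm' : ∀ v, T (A v) = A (T v)
  flag : ∀ i ≤ d, ∀ v, (∀ k ≤ d, i < k → Q k v = 0) → ∀ k ≤ d, i < k → Q' k (S v) = 0
  flag' : ∀ i ≤ d, ∀ v, (∀ k ≤ d, i < k → Q' k v = 0) → ∀ k ≤ d, i < k → Q k (T v) = 0
  inv : ∀ v, S (T v) = v
  inv' : ∀ v, T (S v) = v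

theorem mem_F_iff (iB : Idem B d b Q) (i : ℕ) (hi : i ≤ d) (v : V) :
    v ∈ (⨆ (k : ℕ) (_ : k ≤ i), B.eigenspace (b k)) ↔ ∀ k ≤ d, i < k → Q k v = 0 := by
  rw [mem_iSup_iff iB _ (fun k hk => by omega) v]
  exact ⟨fun h k hk hik => h k hk (by omega), fun h k hk hik => h k hk (by omega)⟩

theorem mem_F'_iff (iB : Idem B d b Q) (i : ℕ) (v : V) :
    v ∈ (⨆ (k : ℕ) (_ : k ≤ d ∧ d ≤ k + i), B.eigenspace (b k)) ↔
      ∀ k ≤ d, i < k → (fun i => Q (d - i)) k v = 0 := by
  rw [mem_iSup_iff iB _ (fun k hk => hk.1) v]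
  constructor
  · exact fun h k hk hik => h (d - k) (by omega) (by omega)
  · intro h k hk hik
    have := h (d - k) (by omega) (by omega)
    simp only at this
    rwa [Nat.sub_sub_self hk] at this

theorem admissible_of_Adm (_iA : Idem A d a P) (iB : Idem B d b Q) {T : Module.End K V}
    (h : Adm A d Q (fun i => Q (d - i)) S T) : Admissible A B d a b S := by
  intro i hi
  constructor
  · ext v
    rw [Submodule.mem_map]
    constructor
    · rintro ⟨u, hu, rfl⟩
      rw [Module.End.mem_eigenspace_iff] at hu ⊢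
      rw [← h.comm, hu, map_smul]
    · intro hv
      refine ⟨T v, ?_, h.inv v⟩
      rw [Module.End.mem_eigenspace_iff] at hv ⊢
      rw [← h.comm', hv, map_smul]
  · ext v
    rw [Submodule.mem_map, mem_F'_iff iB i v]
    constructor
    · rintro ⟨u, hu, rfl⟩
      rw [mem_F_iff iB i hi] at hu
      exact h.flag i hi u hu
    · intro hv
      exact ⟨T v, (mem_F_iff iB i hi _).mpr (h.flag' i hi v hv), h.inv v⟩

theorem Adm_of_admissible [FiniteDimensional K V] (iA : Idem A d a P) (iB : Idem B d b Q)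
    (h : Admissible A B d a b S) : ∃ T, Adm A d Q (fun i => Q (d - i)) S T := by
  have hP : ∀ i ≤ d, ∀ v, P i v ∈ A.eigenspace (a i) := fun i hi v => by
    rw [Module.End.mem_eigenspace_iff]; exact iA.eig i hi v
  have hcomm : ∀ v, S (A v) = A (S v) := by
    intro v
    rw [← iA.sum v, map_sum, map_sum, map_sum, map_sum]
    refine Finset.sum_congr rfl fun i hi => ?_
    have hi' : i ≤ d := by simpa [Nat.lt_succ_iff] using hi
    have h1 : S (P i v) ∈ A.eigenspace (a i) := by
      rw [← (h i hi').1]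
      exact Submodule.mem_map_of_mem (hP i hi' v)
    rw [Module.End.mem_eigenspace_iff] at h1
    rw [iA.eig i hi', map_smul, h1]
  have hsurj : Function.Surjective S := by
    rw [← LinearMap.range_eq_top, eq_top_iff]
    intro v _
    rw [← iA.sum v]
    refine Submodule.sum_mem _ fun i hi => ?_
    have hi' : i ≤ d := by simpa [Nat.lt_succ_iff] using hi
    have h1 : P i v ∈ (A.eigenspace (a i)).map S := by rw [(h i hi').1]; exact hP i hi' v
    obtain ⟨u, _, hu⟩ := Submodule.mem_map.mp h1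
    exact ⟨u, hu⟩
  have hinj : Function.Injective S := LinearMap.injective_iff_surjective.mpr hsurj
  let e := LinearEquiv.ofBijective S ⟨hinj, hsurj⟩
  have he : ∀ v, S (e.symm v) = v := fun v => e.apply_symm_apply v
  have he' : ∀ v, e.symm (S v) = v := fun v => e.symm_apply_apply v
  refine ⟨e.symm.toLinearMap, hcomm, fun v => ?_, fun i hi v hv => ?_, fun i hi v hv => ?_, he,
    he'⟩
  · refine hinj ?_
    show S (e.symm (A v)) = S (A (e.symm v))
    rw [he, hcomm, he]
  · rw [← mem_F'_iff iB i, ← (h i hi).2]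
    exact Submodule.mem_map_of_mem ((mem_F_iff iB i hi v).mpr hv)
  · rw [← mem_F'_iff iB i, ← (h i hi).2] at hv
    obtain ⟨u, hu, rfl⟩ := Submodule.mem_map.mp hv
    have h1 : e.symm.toLinearMap (S u) = u := he' u
    rw [h1]
    exact (mem_F_iff iB i hi u).mp hu

/-- An admissible map gives isomorphisms `L_j → L'_j`. -/
theorem Adm.exists_equiv {T : Module.End K V} (iA : Idem A d a P) (h : Adm A d Q Q' S T) :
    ∃ σ : ∀ j, LW d P Q j ≃ₗ[K] LW d P Q' j, ∀ j, ∀ q : LW d P Q j, S q = σ j q := by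
  refine ⟨fun j => LinearEquiv.ofLinearMap
    (S.restrict fun q hq => LW_image iA h.comm h.flag j q hq)
    (T.restrict fun q hq => LW_image iA h.comm' h.flag' j q hq) ?_ ?_, fun j q => rfl⟩
  · ext q
    exact h.inv q
  · ext q
    exact h.inv' q

/-- Isomorphisms `L_j → L'_j` come from an admissible map. -/
theorem exists_Adm (h : Sys A B d a P d b Q) (h' : Sys A B d a P d b' Q')
    (σ : ∀ j, LW d P Q j ≃ₗ[K] LW d P Q' j) :
    ∃ S T, Adm A d Q Q' S T ∧ ∀ j s, 2 * j + s ≤ d → ∀ q : LW d P Q j,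
        S (aeval A (str a j s) (q : V)) = aeval A (str a j s) (σ j q : V) := by
  obtain ⟨S, hS1, hS2⟩ := exists_ext_map (Q' := Q') h (fun j => (σ j).toLinearMap)
  obtain ⟨T, hT1, hT2⟩ := exists_ext_map (Q' := Q) h' (fun j => (σ j).symm.toLinearMap)
  have hST : S ∘ₗ T = LinearMap.id := by
    refine Sys.map_ext h' _ _ fun j s hjs q hq => ?_
    rw [LinearMap.comp_apply, hT2 j s hjs ⟨q, hq⟩, hS2 j s hjs]
    simp
  have hTS : T ∘ₗ S = LinearMap.id := by
    refine Sys.map_ext h _ _ fun j s hjs q hq => ?_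
    rw [LinearMap.comp_apply, hS2 j s hjs ⟨q, hq⟩, hT2 j s hjs]
    simp
  exact ⟨S, T, ⟨hS1, hT1, fun i _ v hv => ext_flag h h' _ hS2 i v hv,
    fun i _ v hv => ext_flag h' h _ hT2 i v hv, fun v => LinearMap.congr_fun hST v,
    fun v => LinearMap.congr_fun hTS v⟩, fun j s hjs q => hS2 j s hjs q⟩

/-- The spaces `L_j`, `L'_j` have the same dimension. -/
theorem finrank_LW_eq [FiniteDimensional K V] (h : Sys A B d a P d b Q)
    (h' : Sys A B d a P d b' Q') (j : ℕ) :
    finrank K (LW d P Q j) = finrank K (LW d P Q' j) := by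
  induction j using Nat.strong_induction_on with
  | _ j ih =>
  by_cases hj : 2 * j ≤ d
  · have h1 := Sys.finrank_eig h j (by omega)
    have h2 := Sys.finrank_eig h' j (by omega)
    have hset : (Finset.range (j + 1)).filter (fun l => j + l ≤ d) = Finset.range (j + 1) := by
      refine Finset.filter_true_of_mem fun l hl => ?_
      have := Finset.mem_range.mp hl
      omega
    rw [hset, Finset.sum_range_succ] at h1 h2
    have h3 : ∑ l ∈ Finset.range j, finrank K (LW d P Q l) =
        ∑ l ∈ Finset.range j, finrank K (LW d P Q' l) :=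
      Finset.sum_congr rfl fun l hl => ih l (Finset.mem_range.mp hl)
    omega
  · have h1 : LW d P Q j = ⊥ := by
      rw [Submodule.eq_bot_iff]
      exact fun q hq => Sys.LW_big h j (by omega) q hq
    have h2 : LW d P Q' j = ⊥ := by
      rw [Submodule.eq_bot_iff]
      exact fun q hq => Sys.LW_big h' j (by omega) q hq
    rw [h1, h2]

/-- Every vector of `V_i` is in a unique way a sum of vectors `E_i q_j`, `q_j ∈ L_j`,
`j ≤ min (i, d - i)`. -/
theorem eig_unique (h : Sys A B d a P d b Q) (L : ℕ → Submodule K V) (hL : L = LW d P Q) (i : ℕ)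
    (hi : i ≤ d) (w : V) (hw : w ∈ A.eigenspace (a i)) :
    ∃! q : (∀ j : Fin (min i (d - i) + 1), L j), ∑ j, P i (q j : V) = w := by
  subst hL
  classical
  set J := (Finset.range (i + 1)).filter (fun j => i + j ≤ d) with hJ
  have hJ' : J = Finset.range (min i (d - i) + 1) := by
    ext j; rw [hJ, Finset.mem_filter, Finset.mem_range, Finset.mem_range]; omega
  have hc : ∀ j ≤ i, i + j ≤ d → (str a j (i - j)).eval (a i) ≠ 0 := by
    intro j hji hij
    rw [str_eval, Finset.prod_ne_zero_iff]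
    intro t ht h0
    have ht' := Finset.mem_range.mp ht
    have := h.iA.inj i hi (j + t) (by omega) (sub_eq_zero.mp h0)
    omega
  -- extension of a family by zero
  let ex : (∀ j : Fin (min i (d - i) + 1), LW d P Q j) → ℕ → V := fun q j =>
    if hj : j < min i (d - i) + 1 then (q ⟨j, hj⟩ : V) else 0
  have hex : ∀ q j, ex q j ∈ LW d P Q j := by
    intro q j
    show (if hj : j < min i (d - i) + 1 then (q ⟨j, hj⟩ : V) else 0) ∈ _
    split_ifs with hj
    · exact (q ⟨j, hj⟩).2
    · exact Submodule.zero_mem _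
  have hex' : ∀ q, ∀ j : Fin (min i (d - i) + 1), ex q j = q j := by
    intro q j
    show (if hj : (j : ℕ) < min i (d - i) + 1 then (q ⟨j, hj⟩ : V) else 0) = _
    rw [dif_pos j.2]
  have hsum : ∀ q, ∑ j : Fin (min i (d - i) + 1), P i (q j : V) = ∑ j ∈ J, P i (ex q j) := by
    intro q
    rw [hJ', Finset.sum_range]
    exact Finset.sum_congr rfl fun j _ => by rw [hex' q j]
  -- relation with the strings
  have hrel : ∀ r : ℕ → V, P i (∑ j ∈ J, aeval A (str a j (i - j))
      (((str a j (i - j)).eval (a i))⁻¹ • r j)) = ∑ j ∈ J, P i (r j) := by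
    intro r
    rw [map_sum]
    refine Finset.sum_congr rfl fun j hj => ?_
    rw [hJ, Finset.mem_filter, Finset.mem_range] at hj
    rw [P_aeval h.iA i hi, map_smul, smul_smul, mul_inv_cancel₀ (hc j (by omega) hj.2), one_smul]
  have hzero : ∀ r : ℕ → V, (∀ j, r j ∈ LW d P Q j) → ∑ j ∈ J, P i (r j) = 0 →
      ∀ j ∈ J, r j = 0 := by
    intro r hr hr0 j hj
    have hr' : ∀ j, ((str a j (i - j)).eval (a i))⁻¹ • r j ∈ LW d P Q j :=
      fun j => Submodule.smul_mem _ _ (hr j)
    rw [← hrel] at hr0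
    have hU : ∑ j ∈ J, aeval A (str a j (i - j)) (((str a j (i - j)).eval (a i))⁻¹ • r j) ∈
        NN d P d Q i i := by
      refine Submodule.sum_mem _ fun j hj => ?_
      rw [hJ, Finset.mem_filter, Finset.mem_range] at hj
      have h2 := Sys.aeval_mem h j (i - j) _ (Submodule.mem_inf.mp (hr' j)).1
      rwa [show j + (i - j) = i by omega] at h2
    have h0 : ∑ j ∈ J, aeval A (str a j (i - j)) (((str a j (i - j)).eval (a i))⁻¹ • r j) = 0 := by
      refine h.disj i (i + 1) (by omega) _ (mem_NN.mpr ⟨(mem_NN.mp hU).1, fun k hk hki => ?_⟩)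
      by_cases hki' : k = i
      · rw [hki']; exact hr0
      · exact (mem_NN.mp hU).2 k hk (by omega)
    have h1 := Sys.indep_level h i _ hr' (d + 1) (fun l _ _ => by rw [← hJ, h0, map_zero])
    rw [hJ, Finset.mem_filter, Finset.mem_range] at hj
    have h2 := h1 j (by omega) (by omega) hj.2
    rcases smul_eq_zero.mp h2 with h3 | h3
    · exact absurd (inv_eq_zero.mp h3) (hc j (by omega) hj.2)
    · exact h3
  rw [Module.End.mem_eigenspace_iff] at hw
  have hPw := h.iA.mem i hi w hw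
  obtain ⟨u, g, hug, hu, hg⟩ := Sys.split h i w
  have huU : u ∈ NN d P d Q i i := by
    refine mem_NN.mpr ⟨hu, fun k hk hki => ?_⟩
    have : u = w - g := by rw [hug]; abel
    rw [this, map_sub, hg k hk (by omega), sub_zero, ← hPw, h.iA.orth k hk i hi,
      if_neg (by omega)]
  obtain ⟨q, hq, hqe⟩ := Sys.gen h i hi u huU
  have hPu : P i u = w := by
    have : u = w - g := by rw [hug]; abel
    rw [this, map_sub, hPw, hg i hi (by omega), sub_zero]
  refine ⟨fun j => ⟨(str a j (i - j)).eval (a i) • q j, Submodule.smul_mem _ _ (hq j)⟩, ?_, ?_⟩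
  · show ∑ j : Fin (min i (d - i) + 1), P i ((str a j (i - j)).eval (a i) • q j) = w
    rw [← Finset.sum_range (fun j => P i ((str a j (i - j)).eval (a i) • q j)), ← hJ', ← hPu, hqe,
      map_sum]
    refine Finset.sum_congr rfl fun j _ => ?_
    rw [P_aeval h.iA i hi, map_smul]
  · intro q' hq'
    funext j
    refine Subtype.ext ?_
    have h1 : ∑ j ∈ J, P i (ex q' j - (str a j (i - j)).eval (a i) • q j) = 0 := by
      have h2 : ∀ j ∈ J, P i (ex q' j - (str a j (i - j)).eval (a i) • q j) =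
          P i (ex q' j) - P i (aeval A (str a j (i - j)) (q j)) := by
        intro j _
        rw [map_sub, map_smul, P_aeval h.iA i hi]
      rw [Finset.sum_congr rfl h2, Finset.sum_sub_distrib, ← hsum, hq', ← map_sum, ← hqe, hPu,
        sub_self]
    have h2 := hzero _ (fun j => Submodule.sub_mem _ (hex q' j) (Submodule.smul_mem _ _ (hq j))) h1
      j (by rw [hJ']; exact Finset.mem_range.mpr j.2)
    rw [hex' q' j] at h2
    exact sub_eq_zero.mp h2

/-- The projection onto the eigenspace `V_i` of `A` along the other eigenspaces. -/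
noncomputable def E (A : Module.End K V) (d : ℕ) (a : ℕ → K) (i : ℕ) : Module.End K V :=
  proj A (vals d a) (a i)

/-- Every vector of `V_i` is in a unique way a sum of vectors `E_i q_j` with `q_j ∈ L_j`,
`j ≤ min (i, d - i)`, for each `i ≤ d`. -/
def EigDecomp (A : Module.End K V) (d : ℕ) (a : ℕ → K) (L : ℕ → Submodule K V) : Prop :=
  ∀ i ≤ d, ∀ v ∈ A.eigenspace (a i),
    ∃! q : (∀ j : Fin (min i (d - i) + 1), L j), ∑ j, E A d a i (q j : V) = v

/-- A family of linear isomorphisms `L_j → L'_j`, `j = 0, 1, 2, …`. -/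
abbrev Isos (A B : Module.End K V) (d : ℕ) (a b : ℕ → K) : Type _ :=
  ∀ j : ℕ, Low A B d a b j ≃ₗ[K] Low' A B d a b j

/-- `S q = σ_j q` for all `q ∈ L_j` and all `j`. -/
def Extends (A B : Module.End K V) (d : ℕ) (a b : ℕ → K) (S : Module.End K V)
    (σ : Isos A B d a b) : Prop :=
  ∀ j, ∀ q : Low A B d a b j, S q = σ j q

/-- `S E_i q = E_i σ_j q` for `q ∈ L_j`. -/
def OnEig (A B : Module.End K V) (d : ℕ) (a b : ℕ → K) (S : Module.End K V)
    (σ : Isos A B d a b) : Prop :=
  ∀ i ≤ d, ∀ j, ∀ q : Low A B d a b j, S (E A d a i q) = E A d a i (σ j q)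

/-- `S τ_{j,s} q = τ_{j,s} σ_j q` for `q ∈ L_j`. -/
def OnStrings (A B : Module.End K V) (d : ℕ) (a b : ℕ → K) (S : Module.End K V)
    (σ : Isos A B d a b) : Prop :=
  ∀ j s, ∀ q : Low A B d a b j, S (tau A a j s q) = tau A a j s (σ j q)

theorem Adm.exists_equiv' {T : Module.End K V} (iA : Idem A d a P) (h : Adm A d Q Q' S T)
    (L L' : ℕ → Submodule K V) (hL : L = LW d P Q) (hL' : L' = LW d P Q') :
    ∃ σ : ∀ j, L j ≃ₗ[K] L' j, ∀ j, ∀ q : L j, S q = σ j q := by
  subst hL hL'
  exact Adm.exists_equiv iA h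

theorem exists_Adm' (h : Sys A B d a P d b Q) (h' : Sys A B d a P d b' Q')
    (L L' : ℕ → Submodule K V) (hL : L = LW d P Q) (hL' : L' = LW d P Q')
    (σ : ∀ j, L j ≃ₗ[K] L' j) :
    ∃ S T, Adm A d Q Q' S T ∧ ∀ j s, 2 * j + s ≤ d → ∀ q : L j,
        S (aeval A (str a j s) (q : V)) = aeval A (str a j s) (σ j q : V) := by
  subst hL hL'
  exact exists_Adm h h' σ

theorem rev_sys (h : Sys A B d a P d b Q) :
    Sys A B d a P d (fun i => b (d - i)) (fun i => Q (d - i)) := h.revB

theorem main [FiniteDimensional K V] {A B : Module.End K V} {d : ℕ} {a b : ℕ → K}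
    (hA : TDOrdering A B d a) (hB : TDOrdering B A d b) (irred : Irred A B) :
    EigDecomp A d a (Low A B d a b) ∧
    (∀ S, Admissible A B d a b S → ∃! σ : Isos A B d a b, Extends A B d a b S σ) ∧
    (∀ σ : Isos A B d a b, ∃! S, Admissible A B d a b S ∧ Extends A B d a b S σ) ∧
    (∀ S, ∀ σ : Isos A B d a b, Admissible A B d a b S → Extends A B d a b S σ →
      OnEig A B d a b S σ ∧ OnStrings A B d a b S σ) ∧
    Nonempty (Isos A B d a b) := by
  have h := TDOrdering.sys hA hB irred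
  have h' := rev_sys h
  have hL := Low_eq h.iA h.iB
  have hL' := Low'_eq h.iA h.iB
  have hcomm : ∀ S, Admissible A B d a b S → ∀ v, S (A v) = A (S v) := fun S hS => by
    obtain ⟨T, hT⟩ := Adm_of_admissible h.iA h.iB hS
    exact hT.comm
  have huniq : ∀ S S' : Module.End K V, (∀ v, S (A v) = A (S v)) → (∀ v, S' (A v) = A (S' v)) →
      (∀ j, ∀ q ∈ Low A B d a b j, S q = S' q) → S = S' := by
    intro S S' h1 h2 h3
    refine Sys.map_ext h S S' fun j s hjs q hq => ?_
    rw [comm_aeval h1, comm_aeval h2, h3 j q (by rw [hL]; exact hq)]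
  refine ⟨fun i hi v hv => eig_unique h _ hL i hi v hv, fun S hS => ?_, fun σ => ?_,
    fun S σ hS hσ => ⟨fun i hi j q => ?_, fun j s q => ?_⟩, ?_⟩
  · obtain ⟨T, hT⟩ := Adm_of_admissible h.iA h.iB hS
    obtain ⟨σ, hσ⟩ := Adm.exists_equiv' h.iA hT _ _ hL hL'
    refine ⟨σ, hσ, fun σ' hσ' => ?_⟩
    funext j
    refine LinearEquiv.ext fun q => Subtype.ext ?_
    exact (hσ' j q).symm.trans (hσ j q)
  · obtain ⟨S, T, hST, hS⟩ := exists_Adm' h h' _ _ hL hL' σ
    have hSq : Extends A B d a b S σ := by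
      intro j q
      by_cases hj : 2 * j ≤ d
      · have h2 := hS j 0 (by omega) q
        rw [str_zero, map_one, Module.End.one_apply, Module.End.one_apply] at h2
        exact h2
      · have h2 : (q : V) = 0 := Sys.LW_big h j (by omega) q (by rw [← hL]; exact q.2)
        have h3 : q = 0 := Subtype.ext h2
        rw [h3, map_zero]
        simp
    refine ⟨S, ⟨admissible_of_Adm h.iA h.iB hST, hSq⟩, fun S' hS' => ?_⟩
    refine huniq S' S (hcomm S' hS'.1) hST.comm fun j q hq => ?_
    exact (hS'.2 j ⟨q, hq⟩).trans (hSq j ⟨q, hq⟩).symm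
  · show S (proj A (vals d a) (a i) q) = proj A (vals d a) (a i) (σ j q)
    rw [← comm_P h.iA (hcomm S hS) i hi q, hσ j q]
  · show S (aeval A (str a j s) q) = aeval A (str a j s) (σ j q)
    rw [comm_aeval (hcomm S hS), hσ j q]
  · refine ⟨fun j => LinearEquiv.ofFinrankEq _ _ ?_⟩
    rw [hL, hL']
    exact finrank_LW_eq h h' j

end Pool.Agent.U50.TDA
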