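import Pool.Agent.U50.TDA

/-! Maps that are upper triangular on the flag of `A*` and tridiagonal on the eigenspaces of `A`:
criterion on strings, closure properties, coordinates. -/

set_option autoImplicit false

namespace Pool.Agent.U50.TDU

open Polynomial Module Pool.Agent.Helper9.TD Pool.Agent.R841.TD
open Pool.Agent.U50.TDA (A_str str_top FI_le)

variable {K : Type*} [Field K] {V : Type*} [AddCommGroup V] [Module K V]

/-- the two conditions on `X`, in terms of the projections onto the eigenspaces -/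
structure UP (d : ℕ) (P Q : ℕ → Module.End K V) (X : Module.End K V) : Prop where
  up : ∀ i ≤ d, ∀ k ≤ d, i < k → ∀ v, Q k (X (Q i v)) = 0
  tri : ∀ i ≤ d, ∀ k ≤ d, (i + 1 < k ∨ k + 1 < i) → ∀ v, P k (X (P i v)) = 0

/-- the conditions on the spaces `U_i` -/
def UU (d : ℕ) (P Q : ℕ → Module.End K V) (X : Module.End K V) : Prop :=
  ∀ i ≤ d, ∀ v ∈ NN d P d Q i i, X v ∈ NN d P d Q i (i - 1)

variable {A B : Module.End K V} {d : ℕ} {a b : ℕ → K} {P Q : ℕ → Module.End K V}
  {X : Module.End K V}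

theorem UP.F (iB : Idem B d b Q) (hX : UP d P Q X) (i : ℕ) (v : V)
    (hv : ∀ k ≤ d, i < k → Q k v = 0) (k : ℕ) (hk : k ≤ d) (hik : i < k) : Q k (X v) = 0 := by
  rw [← iB.sum v, map_sum, map_sum]
  refine Finset.sum_eq_zero fun l hl => ?_
  have hl' : l ≤ d := by simpa [Nat.lt_succ_iff] using hl
  by_cases h : i < l
  · rw [hv l hl' h, map_zero, map_zero]
  · exact hX.up l hl' k hk (by omega) v

theorem UP.add {X' : Module.End K V} (hX : UP d P Q X) (hX' : UP d P Q X') :
    UP d P Q (X + X') where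
  up := fun i hi k hk hik v => by
    rw [LinearMap.add_apply, map_add, hX.up i hi k hk hik, hX'.up i hi k hk hik, add_zero]
  tri := fun i hi k hk hik v => by
    rw [LinearMap.add_apply, map_add, hX.tri i hi k hk hik, hX'.tri i hi k hk hik, add_zero]

theorem UP.sub {X' : Module.End K V} (hX : UP d P Q X) (hX' : UP d P Q X') :
    UP d P Q (X - X') where
  up := fun i hi k hk hik v => by
    rw [LinearMap.sub_apply, map_sub, hX.up i hi k hk hik, hX'.up i hi k hk hik, sub_zero]
  tri := fun i hi k hk hik v => by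
    rw [LinearMap.sub_apply, map_sub, hX.tri i hi k hk hik, hX'.tri i hi k hk hik, sub_zero]

theorem UP.of_SL (hX : SL d P Q X) : UP d P Q X where
  up := fun i hi k hk hik v => hX.low i hi k hk hik.le v
  tri := hX.tri

theorem UP.A_mul (h : Sys A B d a P d b Q) (hX : SL d P Q X) : UP d P Q (A * X) where
  up := fun i hi k hk hik v => by
    rw [Module.End.mul_apply]
    rcases i with _ | i
    · have : X (Q 0 v) = 0 := h.iB.eq_zero _ fun l hl => hX.low 0 hi l hl (by omega) v
      rw [this, map_zero, map_zero]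
    · exact up_lemma h.iB h.triB i _ (fun l hl hil => hX.low (i + 1) hi l hl hil v) k hk
        (by omega)
  tri := fun i hi k hk hik v => by
    rw [Module.End.mul_apply, h.iA.comm k hk, hX.tri i hi k hk hik, smul_zero]

theorem UP.mul_A (h : Sys A B d a P d b Q) (hX : SL d P Q X) : UP d P Q (X * A) where
  up := fun i hi k hk hik v => by
    rw [Module.End.mul_apply]
    refine hX.F h.iB (i + 1) _ (fun l hl hil => ?_) k hk hik
    exact up_lemma h.iB h.triB i _ (fun m hm him => by
      rw [h.iB.orth m hm i hi, if_neg (by omega)]) l hl hil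
  tri := fun i hi k hk hik v => by
    rw [Module.End.mul_apply, h.iA.eig i hi, map_smul, map_smul, hX.tri i hi k hk hik, smul_zero]

theorem Sys.UU_F (h : Sys A B d a P d b Q) (h1 : UU d P Q X) (i : ℕ) : i ≤ d → ∀ v : V,
    (∀ k ≤ d, i < k → Q k v = 0) → ∀ k ≤ d, i < k → Q k (X v) = 0 := by
  induction i with
  | zero =>
    intro hi v hv
    exact (mem_NN.mp (h1 0 hi v (mem_NN.mpr ⟨hv, fun k _ hk => by omega⟩))).1
  | succ i ih =>
    intro hi v hv k hk hik
    obtain ⟨u, w, huw, hu, hw⟩ := Sys.split h i v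
    have hw' : w ∈ NN d P d Q (i + 1) (i + 1) := by
      refine mem_NN.mpr ⟨fun l hl hil => ?_, hw⟩
      have : w = v - u := by rw [huw]; abel
      rw [this, map_sub, hv l hl hil, hu l hl (by omega), sub_zero]
    rw [huw, map_add, map_add, ih (by omega) u hu k hk (by omega),
      (mem_NN.mp (h1 (i + 1) hi w hw')).1 k hk hik, add_zero]

theorem Sys.UU_G (h : Sys A B d a P d b Q) (h1 : UU d P Q X) (n : ℕ) : ∀ i, i + n = d + 1 →
    ∀ v : V, (∀ k ≤ d, k < i → P k v = 0) → ∀ k ≤ d, k + 1 < i → P k (X v) = 0 := by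
  induction n with
  | zero =>
    intro i hi v hv k hk hki
    have : v = 0 := h.iA.eq_zero v fun k hk => hv k hk (by omega)
    rw [this, map_zero, map_zero]
  | succ n ih =>
    intro i hi v hv k hk hki
    obtain ⟨u, w, huw, hu, hw⟩ := Sys.split h i v
    have hu' : u ∈ NN d P d Q i i := by
      refine mem_NN.mpr ⟨hu, fun l hl hil => ?_⟩
      have : u = v - w := by rw [huw]; abel
      rw [this, map_sub, hv l hl hil, hw l hl (by omega), sub_zero]
    rw [huw, map_add, map_add, (mem_NN.mp (h1 i (by omega) u hu')).2 k hk (by omega),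
      ih (i + 1) (by omega) w hw k hk (by omega), add_zero]

theorem Sys.UP_of_UU (h : Sys A B d a P d b Q) (h1 : UU d P Q X)
    (h2 : UU d (fun i => P (d - i)) Q X) : UP d P Q X where
  up := fun i hi k hk hik v => by
    refine Sys.UU_F h h1 i hi (Q i v) (fun l hl hil => ?_) k hk hik
    rw [h.iB.orth l hl i hi, if_neg (by omega)]
  tri := fun i hi k hk hik v => by
    rcases hik with hik | hik
    · have h3 := Sys.UU_G h.revA h2 (i + 1) (d - i) (by omega) (P i v) (fun l hl hli => by
        show P (d - l) (P i v) = 0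
        rw [h.iA.orth (d - l) (by omega) i hi, if_neg (by omega)]) (d - k) (by omega) (by omega)
      have h4 : P (d - (d - k)) (X (P i v)) = 0 := h3
      rwa [Nat.sub_sub_self hk] at h4
    · refine Sys.UU_G h h1 (d + 1 - i) i (by omega) (P i v) (fun l hl hli => ?_) k hk hik
      rw [h.iA.orth l hl i hi, if_neg (by omega)]

/-- criterion on the strings -/
theorem Sys.UU_of_str (h : Sys A B d a P d b Q)
    (hX : ∀ j s, 2 * j + s ≤ d → ∀ q ∈ LW d P Q j,
      X (aeval A (str a j s) q) ∈ NN d P d Q (j + s) (j + s - 1)) : UU d P Q X := by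
  intro i hi v hv
  obtain ⟨q, hq, hqe⟩ := Sys.gen h i hi v hv
  rw [hqe, map_sum]
  refine Submodule.sum_mem _ fun j hj => ?_
  rw [Finset.mem_filter, Finset.mem_range] at hj
  have := hX j (i - j) (by omega) (q j) (hq j)
  rwa [show j + (i - j) = i by omega] at this

/-! membership -/

theorem NN_mono {i j i' j' : ℕ} (hi : i ≤ i') (hj : j' ≤ j) {v : V} (hv : v ∈ NN d P d Q i j) :
    v ∈ NN d P d Q i' j' :=
  mem_NN.mpr ⟨fun k hk hik => (mem_NN.mp hv).1 k hk (by omega),
    fun k hk hik => (mem_NN.mp hv).2 k hk (by omega)⟩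

theorem Sys.NN_sub (h : Sys A B d a P d b Q) (c : K) (i j : ℕ) (v : V)
    (hv : v ∈ NN d P d Q i j) : A v - c • v ∈ NN d P d Q (i + 1) j := by
  rw [mem_NN] at hv ⊢
  refine ⟨fun k hk hik => ?_, fun k hk hkj => ?_⟩
  · rw [map_sub, map_smul, hv.1 k hk (by omega), up_lemma h.iB h.triB i v hv.1 k hk hik, smul_zero,
      sub_zero]
  · rw [map_sub, map_smul, h.iA.comm k hk, hv.2 k hk hkj, smul_zero, smul_zero, sub_zero]

theorem aeval_lin (c : K) (p : K[X]) (v : V) :
    aeval A ((Polynomial.X - C c) * p) v = A (aeval A p v) - c • aeval A p v := by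
  rw [map_mul, Module.End.mul_apply]
  simp only [map_sub, aeval_X, aeval_C, LinearMap.sub_apply, Module.algebraMap_end_apply]

/-- `τ_{k,t} r ∈ U_{k+t}` -/
theorem Sys.mem1 (h : Sys A B d a P d b Q) (k t : ℕ) (r : V) (hr : r ∈ LW d P Q k) :
    aeval A (str a k t) r ∈ NN d P d Q (k + t) (k + t) :=
  Sys.aeval_mem h k t r (Submodule.mem_inf.mp hr).1

/-- `(A - c) τ_{k,t} r` -/
theorem Sys.mem2 (h : Sys A B d a P d b Q) (k t : ℕ) (r : V) (hr : r ∈ LW d P Q k) (c : K) :
    aeval A ((Polynomial.X - C c) * str a k t) r ∈ NN d P d Q (k + t + 1) (k + t) := by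
  rw [aeval_lin]
  exact Sys.NN_sub h c _ _ _ (Sys.mem1 h k t r hr)

/-- `τ_{k-1,t+1} r` for `r ∈ L_k` -/
theorem Sys.mem3 (h : Sys A B d a P d b Q) (k t : ℕ) (r : V) (hr : r ∈ LW d P Q (k + 1)) :
    aeval A (str a k (t + 1)) r ∈ NN d P d Q (k + 1 + t + 1) (k + 1 + t) := by
  rw [str_succ']
  exact Sys.mem2 h (k + 1) t r hr (a k)

end Pool.Agent.U50.TDU
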