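import Pool.Agent.U50.TDU1

/-! The maps `Y`. -/

set_option autoImplicit false

namespace Pool.Agent.U50.TDU

open Polynomial Module Pool.Agent.Helper9.TD Pool.Agent.R841.TD
open Pool.Agent.U50.TDA (A_str str_top FI_le)

variable {K : Type*} [Field K] {V : Type*} [AddCommGroup V] [Module K V]

/-- the properties of the operator `D` -/
structure DProp (d : ℕ) (a : ℕ → K) (β : K) (D : K[X] →ₗ[K] K[X]) (c c' : ℕ → K) : Prop where
  p1 : ∀ j s, 2 * j + s ≤ d → D (str a j s) = C (TT β (s - 1)) * str a (j + 1) (s - 2)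
  p2 : ∀ j s, 2 * j + s ≤ d → D ((X - C (c j)) * str a j s) = C (TT β s) * str a j (s - 1)
  p3 : ∀ j s, 2 * j + s ≤ d → D (str (fun i => a (d - i)) j s) =
    C (TT β (s - 1)) * str (fun i => a (d - i)) (j + 1) (s - 2)
  p4 : ∀ j s, 2 * j + s ≤ d → D ((X - C (c' j)) * str (fun i => a (d - i)) j s) =
    C (TT β s) * str (fun i => a (d - i)) j (s - 1)

theorem poly_D2 (d : ℕ) (a : ℕ → K) (β : K)
    (hrec : ∀ i, i + 3 ≤ d → a i - a (i + 3) = (β + 1) * (a (i + 1) - a (i + 2))) :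
    ∃ (D : K[X] →ₗ[K] K[X]) (c c' : ℕ → K), DProp d a β D c c' := by
  obtain ⟨γ, α, hα, hαa⟩ := exists_ext d a β hrec
  obtain ⟨A', hA'd⟩ : ∃ A' : ℕ → K, ∀ i : ℕ, A' i = α ((i : ℤ) - 1) := ⟨_, fun _ => rfl⟩
  have hA' : ∀ i : ℕ, A' i - β * A' (i + 1) + A' (i + 2) = γ := by
    intro i
    have h := hα (i : ℤ)
    have e1 : (((i + 1 : ℕ) : ℤ) - 1) = (i : ℤ) := by push_cast; ring
    have e2 : (((i + 2 : ℕ) : ℤ) - 1) = (i : ℤ) + 1 := by push_cast; ring
    rw [hA'd, hA'd, hA'd, e1, e2]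
    exact h
  obtain ⟨D, hD⟩ := exists_D hA'
  have hA'a : ∀ i ≤ d, A' (i + 1) = a i := by
    intro i hi
    have e1 : (((i + 1 : ℕ) : ℤ) - 1) = (i : ℤ) := by push_cast; ring
    rw [hA'd, e1]
    exact hαa i hi
  have hfwd : ∀ j s, j + s ≤ d + 1 → str a j s = str A' (j + 1) s := by
    intro j s hjs
    rw [str, str]
    refine Finset.prod_congr rfl fun i hi => ?_
    have := Finset.mem_range.mp hi
    rw [show j + 1 + i = (j + i) + 1 by ring, hA'a (j + i) (by omega)]
  have hrev : ∀ j s, j + s ≤ d + 1 →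
      str (fun i => a (d - i)) j s = str A' (d + 2 - j - s) s := by
    intro j s hjs
    rw [str_rev a d j s hjs, hfwd _ _ (by omega)]
    congr 1
    omega
  refine ⟨D, A', fun j => A' (d + 2 - j), ⟨fun j s hjs => ?_, fun j s hjs => ?_, fun j s hjs => ?_,
    fun j s hjs => ?_⟩⟩
  · rw [hfwd j s (by omega), hD, hfwd (j + 1) (s - 2) (by omega)]
  · rw [hfwd j s (by omega), ← str_succ', hD, hfwd j (s - 1) (by omega), Nat.add_sub_cancel,
      show s + 1 - 2 = s - 1 by omega]
  · rw [hrev j s (by omega), hD]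
    rcases Nat.lt_or_ge s 2 with hs | hs
    · rw [show s - 1 = 0 by omega]
      simp [TT]
    · rw [hrev (j + 1) (s - 2) (by omega),
        show d + 2 - (j + 1) - (s - 2) = d + 2 - j - s + 1 by omega]
  · rw [hrev j s (by omega)]
    have h1 : (X - C (A' (d + 2 - j))) * str A' (d + 2 - j - s) s =
        str A' (d + 2 - j - s) (s + 1) := by
      rw [str_succ, show d + 2 - j - s + s = d + 2 - j by omega, mul_comm]
    rw [h1, hD, Nat.add_sub_cancel]
    rcases Nat.eq_zero_or_pos s with hs | hs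
    · rw [hs]
      simp [TT]
    · rw [hrev j (s - 1) (by omega), show s + 1 - 2 = s - 1 by omega,
        show d + 2 - j - (s - 1) = d + 2 - j - s + 1 by omega]

variable {A B : Module.End K V} {d : ℕ} {a b : ℕ → K} {P Q : ℕ → Module.End K V}
  {Y : Module.End K V}

/-- The formula for `Y` on a string. -/
noncomputable def YF (A : Module.End K V) (d : ℕ) (a : ℕ → K) (β : K) (j s : ℕ) (x0 x1 x2 y z : V) : V :=
  aeval A (str a j s) x0 + TT β s • aeval A ((X - C (a (d - j))) * str a j (s - 1)) x1 +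
    TT β (s - 1) • aeval A ((X - C (a (d - j))) * str a j (s - 1)) x2 +
    TT β (s - 1) • aeval A (str a (j + 1) (s - 2)) y +
    TT β (d + 1 - 2 * j - s) • aeval A ((X - C (a (d + 2 - j))) * str a (j - 2) (s + 1)) z

theorem Y_rev (β : K)
    (hrec : ∀ i, i + 3 ≤ d → a i - a (i + 3) = (β + 1) * (a (i + 1) - a (i + 2)))
    (D : K[X] →ₗ[K] K[X]) (c c' : ℕ → K) (hD : DProp d a β D c c') (j : ℕ) (hj : 2 * j ≤ d)
    (q x0 x1 x2 y z : V) (hz : j < 2 → z = 0)
    (hY : ∀ s, 2 * j + s ≤ d → Y (aeval A (str a j s) q) = YF A d a β j s x0 x1 x2 y z)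
    (s : ℕ) (hs : 2 * j + s ≤ d) :
    Y (aeval A (str (fun i => a (d - i)) j s) q) =
      aeval A (str (fun i => a (d - i)) j s) x0 +
      (TT β s • aeval A ((X - C (a (d - j))) * str (fun i => a (d - i)) j (s - 1)) x1 +
        ((c' j - c j) * TT β (s - 1)) • aeval A (str (fun i => a (d - i)) j (s - 1)) x1) +
      TT β (s - 1) • aeval A ((X - C (a j)) * str (fun i => a (d - i)) j (s - 1)) x2 +
      TT β (s - 1) • aeval A (str (fun i => a (d - i)) (j + 1) (s - 2)) y +
      TT β (d + 1 - 2 * j - s) •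
        aeval A ((X - C (a (j - 2))) * str (fun i => a (d - i)) (j - 2) (s + 1)) z := by
  obtain ⟨E, hE⟩ : ∃ E : K[X] →ₗ[K] K[X], ∀ s, 2 * j + s ≤ d →
      (TT β (d + 1 - 2 * j - s) • aeval A ((X - C (a (d + 2 - j))) * str a (j - 2) (s + 1)) z =
        aeval A (E (str a j s)) z ∧
      TT β (d + 1 - 2 * j - s) •
        aeval A ((X - C (a (j - 2))) * str (fun i => a (d - i)) (j - 2) (s + 1)) z =
        aeval A (E (str (fun i => a (d - i)) j s)) z) := by
    rcases Nat.lt_or_ge j 2 with hj2 | hj2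
    · refine ⟨0, fun s _ => ?_⟩
      rw [hz hj2]
      simp
    · obtain ⟨i, rfl⟩ : ∃ i, j = i + 2 := ⟨j - 2, by omega⟩
      obtain ⟨E, hE⟩ := poly_E d a β hrec (i + 1) (by omega)
      refine ⟨(LinearMap.mulLeft K ((X - C (a (d - i))) * (X - C (a i)))) ∘ₗ E, fun s hs => ?_⟩
      obtain ⟨h1, h2⟩ := hE s (by omega)
      have e1 : d - 1 - 2 * (i + 1) - s = d + 1 - 2 * (i + 2) - s := by omega
      have e2 : d + 2 - (i + 2) = d - i := by omega
      have e3 : i + 1 + 1 = i + 2 := rfl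
      rw [e1, e3] at h1 h2
      rw [LinearMap.comp_apply, LinearMap.comp_apply, LinearMap.mulLeft_apply,
        LinearMap.mulLeft_apply, h1, h2, e2, Nat.add_sub_cancel]
      constructor
      · have e4 : (X - C (a (d - i))) * (X - C (a i)) *
            (C (TT β (d + 1 - 2 * (i + 2) - s)) * str a (i + 1) s) =
            C (TT β (d + 1 - 2 * (i + 2) - s)) * ((X - C (a (d - i))) * str a i (s + 1)) := by
          rw [str_succ' a i s]; ring
        rw [e4, map_mul (aeval A) (C _), Module.End.mul_apply, aeval_C,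
          Module.algebraMap_end_apply]
      · have e4 : (X - C (a (d - i))) * (X - C (a i)) *
            (C (TT β (d + 1 - 2 * (i + 2) - s)) * str (fun i => a (d - i)) (i + 1) s) =
            C (TT β (d + 1 - 2 * (i + 2) - s)) *
              ((X - C (a i)) * str (fun i => a (d - i)) i (s + 1)) := by
          rw [str_succ' (fun i => a (d - i)) i s]; ring
        rw [e4, map_mul (aeval A) (C _), Module.End.mul_apply, aeval_C,
          Module.algebraMap_end_apply]
  let Θ1 : K[X] →ₗ[K] K[X] := (LinearMap.mulLeft K (X - C (a (d - j)))) ∘ₗ D ∘ₗ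
    (LinearMap.mulLeft K (X - C (c j)))
  let Θ2 : K[X] →ₗ[K] K[X] := (LinearMap.mulLeft K ((X - C (a (d - j))) * (X - C (a j)))) ∘ₗ D
  have hΘ1 : ∀ p, Θ1 p = (X - C (a (d - j))) * D ((X - C (c j)) * p) := fun p => rfl
  have hΘ2 : ∀ p, Θ2 p = (X - C (a (d - j))) * (X - C (a j)) * D p := fun p => rfl
  let ev : V → K[X] →ₗ[K] V := fun v => (LinearMap.applyₗ v) ∘ₗ (aeval A).toLinearMap
  let L : K[X] →ₗ[K] V := Y ∘ₗ ev q - ev x0 - ev x1 ∘ₗ Θ1 - ev x2 ∘ₗ Θ2 - ev y ∘ₗ D - ev z ∘ₗ E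
  have hL : ∀ p, L p = Y (aeval A p q) - aeval A p x0 - aeval A (Θ1 p) x1 - aeval A (Θ2 p) x2 -
      aeval A (D p) y - aeval A (E p) z := fun p => rfl
  have hsm : ∀ (t : K) (p : K[X]) (v : V), aeval A (C t * p) v = t • aeval A p v := by
    intro t p v
    rw [map_mul, Module.End.mul_apply, aeval_C, Module.algebraMap_end_apply]
  have h0 : ∀ t ≤ d - 2 * j, L (str a j t) = 0 := by
    intro t ht
    have e1 : Θ1 (str a j t) = C (TT β t) * ((X - C (a (d - j))) * str a j (t - 1)) := by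
      rw [hΘ1, hD.p2 j t (by omega)]; ring
    have e2 : Θ2 (str a j t) = C (TT β (t - 1)) * ((X - C (a (d - j))) * str a j (t - 1)) := by
      rw [hΘ2, hD.p1 j t (by omega)]
      rcases Nat.lt_or_ge t 2 with h2 | h2
      · rw [show t - 1 = 0 by omega]
        simp [TT]
      · rw [show t - 1 = (t - 2) + 1 by omega, str_succ' a j (t - 2)]; ring
    rw [hL, hY t (by omega), YF, e1, e2, hD.p1 j t (by omega), (hE t (by omega)).1, hsm, hsm, hsm]
    abel
  have h1 := lin_zero a j L (d - 2 * j) h0 (str (fun i => a (d - i)) j s)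
    (by rw [str_natDegree]; omega)
  have e1 : Θ1 (str (fun i => a (d - i)) j s) =
      C (TT β s) * ((X - C (a (d - j))) * str (fun i => a (d - i)) j (s - 1)) +
        C ((c' j - c j) * TT β (s - 1)) * str (fun i => a (d - i)) j (s - 1) := by
    have e3 : (X - C (c j)) * str (fun i => a (d - i)) j s =
        (X - C (c' j)) * str (fun i => a (d - i)) j s +
          (c' j - c j) • str (fun i => a (d - i)) j s := by
      rw [smul_eq_C_mul, C_sub]; ring
    rw [hΘ1, e3, map_add, map_smul, hD.p4 j s hs, hD.p3 j s hs, smul_eq_C_mul]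
    rcases Nat.lt_or_ge s 2 with h2 | h2
    · rw [show s - 1 = 0 by omega]
      simp [TT]
      ring
    · rw [show s - 1 = (s - 2) + 1 by omega, str_succ' (fun i => a (d - i)) j (s - 2), C_mul]
      ring
  have e2 : Θ2 (str (fun i => a (d - i)) j s) =
      C (TT β (s - 1)) * ((X - C (a j)) * str (fun i => a (d - i)) j (s - 1)) := by
    rw [hΘ2, hD.p3 j s hs]
    rcases Nat.lt_or_ge s 2 with h2 | h2
    · rw [show s - 1 = 0 by omega]
      simp [TT]
    · rw [show s - 1 = (s - 2) + 1 by omega, str_succ' (fun i => a (d - i)) j (s - 2)]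
      ring
  rw [hL, e1, e2, hD.p3 j s hs, map_add, LinearMap.add_apply, hsm, hsm, hsm, hsm,
    ← (hE s hs).2] at h1
  rw [← sub_eq_zero, ← h1]
  abel

end Pool.Agent.U50.TDU
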