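import Pool.Agent.U50.TDU2

/-! The maps `Y` satisfy the two conditions. -/

set_option autoImplicit false

namespace Pool.Agent.U50.TDU

open Polynomial Module Pool.Agent.Helper9.TD Pool.Agent.R841.TD
open Pool.Agent.U50.TDA (A_str str_top FI_le)

variable {K : Type*} [Field K] {V : Type*} [AddCommGroup V] [Module K V]

variable {A B : Module.End K V} {d : ℕ} {a b : ℕ → K} {P Q : ℕ → Module.End K V}
  {Y : Module.End K V}

theorem Sys.t1 (h : Sys A B d a P d b Q) (j s : ℕ) (c t : K) (ht : s = 0 → t = 0) (x : V)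
    (hx : x ∈ LW d P Q j) :
    t • aeval A ((X - C c) * str a j (s - 1)) x ∈ NN d P d Q (j + s) (j + s - 1) := by
  rcases Nat.eq_zero_or_pos s with hs | hs
  · rw [ht hs, zero_smul]; exact Submodule.zero_mem _
  · refine Submodule.smul_mem _ _ ?_
    have := Sys.mem2 h j (s - 1) x hx c
    rwa [show j + (s - 1) + 1 = j + s by omega, show j + (s - 1) = j + s - 1 by omega] at this

theorem Sys.t2 (h : Sys A B d a P d b Q) (j s : ℕ) (t : K) (ht : s = 0 → t = 0) (x : V)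
    (hx : x ∈ LW d P Q j) :
    t • aeval A (str a j (s - 1)) x ∈ NN d P d Q (j + s) (j + s - 1) := by
  rcases Nat.eq_zero_or_pos s with hs | hs
  · rw [ht hs, zero_smul]; exact Submodule.zero_mem _
  · refine Submodule.smul_mem _ _ ?_
    exact NN_mono (by omega) (by omega) (Sys.mem1 h j (s - 1) x hx)

theorem Sys.t3 (h : Sys A B d a P d b Q) (j s : ℕ) (t : K) (ht : s ≤ 1 → t = 0) (y : V)
    (hy : y ∈ LW d P Q (j + 2)) :
    t • aeval A (str a (j + 1) (s - 2)) y ∈ NN d P d Q (j + s) (j + s - 1) := by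
  rcases Nat.lt_or_ge s 2 with hs | hs
  · rw [ht (by omega), zero_smul]; exact Submodule.zero_mem _
  · refine Submodule.smul_mem _ _ ?_
    rcases Nat.lt_or_ge s 3 with hs3 | hs3
    · rw [show s - 2 = 0 by omega, str_zero]
      have := Sys.mem1 h (j + 2) 0 y hy
      rw [str_zero] at this
      exact NN_mono (by omega) (by omega) this
    · have := Sys.mem3 h (j + 1) (s - 3) y hy
      rw [show s - 3 + 1 = s - 2 by omega] at this
      exact NN_mono (by omega) (by omega) this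

theorem Sys.t4 (h : Sys A B d a P d b Q) (j s : ℕ) (c t : K) (z : V) (hz0 : j < 2 → z = 0)
    (hz : z ∈ LW d P Q (j - 2)) :
    t • aeval A ((X - C c) * str a (j - 2) (s + 1)) z ∈ NN d P d Q (j + s) (j + s - 1) := by
  rcases Nat.lt_or_ge j 2 with hj | hj
  · rw [hz0 hj, map_zero, smul_zero]; exact Submodule.zero_mem _
  · refine Submodule.smul_mem _ _ ?_
    have := Sys.mem2 h (j - 2) (s + 1) z hz c
    exact NN_mono (by omega) (by omega) this

/-- The component `L_j → L_{j-2}` as a map into `V`. -/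
def l2 {L : ℕ → Submodule K V} (l : ∀ j, L (j + 2) →ₗ[K] L j) : ∀ j, L j →ₗ[K] V
  | 0 => 0
  | 1 => 0
  | (j + 2) => (L j).subtype ∘ₗ l j

theorem l2_mem {L : ℕ → Submodule K V} (l : ∀ j, L (j + 2) →ₗ[K] L j) (j : ℕ) (q : L j) :
    l2 l j q ∈ L (j - 2) := by
  rcases j with _ | _ | j
  · exact Submodule.zero_mem _
  · exact Submodule.zero_mem _
  · exact (l j q).2

theorem l2_zero {L : ℕ → Submodule K V} (l : ∀ j, L (j + 2) →ₗ[K] L j) (j : ℕ) (hj : j < 2)
    (q : L j) : l2 l j q = 0 := by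
  rcases j with _ | _ | j
  · rfl
  · rfl
  · omega

/-- The formula for `Y` on the strings. -/
def YFml (A : Module.End K V) (d : ℕ) (a : ℕ → K) (β : K) {L : ℕ → Submodule K V}
    (e f f' : ∀ j, L j →ₗ[K] L j) (k : ∀ j, L j →ₗ[K] L (j + 2))
    (l : ∀ j, L (j + 2) →ₗ[K] L j) (Y : Module.End K V) : Prop :=
  ∀ j s, 2 * j + s ≤ d → ∀ q : L j, Y (aeval A (str a j s) (q : V)) =
    YF A d a β j s (e j q) (f j q) (f' j q) (k j q) (l2 l j q)

theorem Sys.exists_Y (h : Sys A B d a P d b Q) (β : K) (e f f' : ∀ j, LW d P Q j →ₗ[K] LW d P Q j)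
    (k : ∀ j, LW d P Q j →ₗ[K] LW d P Q (j + 2)) (l : ∀ j, LW d P Q (j + 2) →ₗ[K] LW d P Q j) :
    ∃ Y : Module.End K V, YFml A d a β e f f' k l Y := by
  obtain ⟨Y, hY⟩ := Sys.exists_map h (W := V) (fun j s =>
    aeval A (str a j s) ∘ₗ (LW d P Q j).subtype ∘ₗ e j +
    TT β s • (aeval A ((X - C (a (d - j))) * str a j (s - 1)) ∘ₗ (LW d P Q j).subtype ∘ₗ f j) +
    TT β (s - 1) •
      (aeval A ((X - C (a (d - j))) * str a j (s - 1)) ∘ₗ (LW d P Q j).subtype ∘ₗ f' j) +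
    TT β (s - 1) • (aeval A (str a (j + 1) (s - 2)) ∘ₗ (LW d P Q (j + 2)).subtype ∘ₗ k j) +
    TT β (d + 1 - 2 * j - s) •
      (aeval A ((X - C (a (d + 2 - j))) * str a (j - 2) (s + 1)) ∘ₗ l2 l j))
  exact ⟨Y, fun j s hjs q => hY j s hjs q⟩

theorem TT_le_one (β : K) (s : ℕ) (hs : s ≤ 1) : TT β (s - 1) = 0 := by
  rw [show s - 1 = 0 by omega]; rfl

theorem YFml.UP (h : Sys A B d a P d b Q) (β : K)
    (hrec : ∀ i, i + 3 ≤ d → a i - a (i + 3) = (β + 1) * (a (i + 1) - a (i + 2)))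
    (e f f' : ∀ j, LW d P Q j →ₗ[K] LW d P Q j)
    (k : ∀ j, LW d P Q j →ₗ[K] LW d P Q (j + 2)) (l : ∀ j, LW d P Q (j + 2) →ₗ[K] LW d P Q j)
    (hY : YFml A d a β e f f' k l Y) : UP d P Q Y := by
  obtain ⟨D, c, c', hD⟩ := poly_D2 d a β hrec
  refine Sys.UP_of_UU h (Sys.UU_of_str h ?_) (Sys.UU_of_str h.revA ?_)
  · intro j s hjs q hq
    rw [hY j s hjs ⟨q, hq⟩, YF]
    refine Submodule.add_mem _ (Submodule.add_mem _ (Submodule.add_mem _ (Submodule.add_mem _
      ?_ ?_) ?_) ?_) ?_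
    · exact NN_mono le_rfl (by omega) (Sys.mem1 h j s _ (e j ⟨q, hq⟩).2)
    · exact Sys.t1 h j s _ _ (fun hs => by rw [hs]; rfl) _ (f j ⟨q, hq⟩).2
    · exact Sys.t1 h j s _ _ (fun hs => TT_le_one β s (by omega)) _ (f' j ⟨q, hq⟩).2
    · exact Sys.t3 h j s _ (fun hs => TT_le_one β s hs) _ (k j ⟨q, hq⟩).2
    · exact Sys.t4 h j s _ _ _ (fun hj => l2_zero l j hj _) (l2_mem l j _)
  · intro j s hjs q hq
    rw [LW_rev] at hq
    rw [Y_rev β hrec D c c' hD j (by omega) q _ _ _ _ _ (fun hj => l2_zero l j hj _)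
      (fun t ht => hY j t ht ⟨q, hq⟩) s hjs]
    refine Submodule.add_mem _ (Submodule.add_mem _ (Submodule.add_mem _ (Submodule.add_mem _
      ?_ (Submodule.add_mem _ ?_ ?_)) ?_) ?_) ?_
    · exact NN_mono le_rfl (by omega) (Sys.mem1 h.revA j s _
        (by rw [LW_rev]; exact (e j ⟨q, hq⟩).2))
    · exact Sys.t1 h.revA j s _ _ (fun hs => by rw [hs]; rfl) _
        (by rw [LW_rev]; exact (f j ⟨q, hq⟩).2)
    · exact Sys.t2 h.revA j s _ (fun hs => by rw [TT_le_one β s (by omega), mul_zero]) _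
        (by rw [LW_rev]; exact (f j ⟨q, hq⟩).2)
    · exact Sys.t1 h.revA j s _ _ (fun hs => TT_le_one β s (by omega)) _
        (by rw [LW_rev]; exact (f' j ⟨q, hq⟩).2)
    · exact Sys.t3 h.revA j s _ (fun hs => TT_le_one β s hs) _
        (by rw [LW_rev]; exact (k j ⟨q, hq⟩).2)
    · exact Sys.t4 h.revA j s _ _ _ (fun hj => l2_zero l j hj _)
        (by rw [LW_rev]; exact l2_mem l j _)

end Pool.Agent.U50.TDU
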