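import Pool.Agent.U50.TDU3

/-! Coordinates with respect to the strings, and the recurrence for the leading coordinates. -/

set_option autoImplicit false

namespace Pool.Agent.U50.TDU

open Polynomial Module Pool.Agent.Helper9.TD Pool.Agent.R841.TD
open Pool.Agent.U50.TDA (A_str str_top FI_le)

variable {K : Type*} [Field K] {V : Type*} [AddCommGroup V] [Module K V]

variable {A B : Module.End K V} {d : ℕ} {a b : ℕ → K} {P Q : ℕ → Module.End K V}
  {X : Module.End K V}

/-- `V*_0 + ⋯ + V*_{m-1}` -/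
def GF (d : ℕ) (Q : ℕ → Module.End K V) (m : ℕ) : Submodule K V where
  carrier := {v | ∀ l ≤ d, m ≤ l → Q l v = 0}
  add_mem' := by
    intro x y h1 h2 l hl hml
    rw [map_add, h1 l hl hml, h2 l hl hml, add_zero]
  zero_mem' := fun l _ _ => map_zero _
  smul_mem' := by
    intro c x h1 l hl hml
    rw [map_smul, h1 l hl hml, smul_zero]

theorem mem_GF {m : ℕ} {v : V} : v ∈ GF d Q m ↔ ∀ l ≤ d, m ≤ l → Q l v = 0 := Iff.rfl

theorem GF_mono {m n : ℕ} (h : m ≤ n) {v : V} (hv : v ∈ GF d Q m) : v ∈ GF d Q n :=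
  fun l hl hn => hv l hl (h.trans hn)

theorem GF_zero (iB : Idem B d b Q) {v : V} (hv : v ∈ GF d Q 0) : v = 0 :=
  iB.eq_zero v fun k hk => hv k hk (Nat.zero_le k)

theorem GF_A (h : Sys A B d a P d b Q) {m : ℕ} {v : V} (hv : v ∈ GF d Q m) :
    A v ∈ GF d Q (m + 1) := by
  rcases m with _ | m
  · rw [GF_zero h.iB hv, map_zero]; exact Submodule.zero_mem _
  · intro l hl hml
    exact up_lemma h.iB h.triB m v (fun k hk hmk => hv k hk (by omega)) l hl (by omega)

theorem GF_UP (iB : Idem B d b Q) (hX : UP d P Q X) {m : ℕ} {v : V} (hv : v ∈ GF d Q m) :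
    X v ∈ GF d Q m := by
  rcases m with _ | m
  · rw [GF_zero iB hv, map_zero]; exact Submodule.zero_mem _
  · intro l hl hml
    exact hX.F iB m v (fun k hk hmk => hv k hk (by omega)) l hl (by omega)

theorem GF_SL (iB : Idem B d b Q) (hX : SL d P Q X) {m : ℕ} {v : V} (hv : v ∈ GF d Q (m + 1)) :
    X v ∈ GF d Q m :=
  fun l hl hml => hX.F iB m v (fun k hk hmk => hv k hk (by omega)) l hl (by omega)

theorem GF_str (h : Sys A B d a P d b Q) (j s : ℕ) (q : V) (hq : q ∈ LW d P Q j) :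
    aeval A (str a j s) q ∈ GF d Q (j + s + 1) :=
  fun l hl hml => (mem_NN.mp (Sys.mem1 h j s q hq)).1 l hl (by omega)

/-- strings vanish beyond their end -/
theorem str_gt (h : Sys A B d a P d b Q) (j s : ℕ) (hjs : d < 2 * j + s) (q : V)
    (hq : q ∈ LW d P Q j) : aeval A (str a j s) q = 0 := by
  by_cases hj : 2 * j ≤ d
  · obtain ⟨t, rfl⟩ : ∃ t, s = (d - 2 * j + 1) + t := ⟨s - (d - 2 * j + 1), by omega⟩
    rw [str_add, mul_comm, map_mul, Module.End.mul_apply, str_top h.iA j hj q hq, map_zero]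
  · rw [Sys.LW_big h j (by omega) q hq, map_zero]

/-- `c` is the family of the coordinate maps -/
def IsCo (A : Module.End K V) (d : ℕ) (a : ℕ → K) (P Q : ℕ → Module.End K V)
    (c : ∀ k : ℕ, ℕ → (V →ₗ[K] LW d P Q k)) : Prop :=
  ∀ k t j s, 2 * j + s ≤ d → ∀ q ∈ LW d P Q j,
    (c k t (aeval A (str a j s) q) : V) = if j = k ∧ s = t then q else 0

theorem exists_IsCo (h : Sys A B d a P d b Q) :
    ∃ c : ∀ k : ℕ, ℕ → (V →ₗ[K] LW d P Q k), IsCo A d a P Q c := by
  choose c hc using fun j s => Sys.exists_coord h j s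
  exact ⟨c, fun k t j s hjs q hq => hc k t j s hjs q hq⟩

variable {c : ∀ k : ℕ, ℕ → (V →ₗ[K] LW d P Q k)}

theorem co_F (h : Sys A B d a P d b Q) (hc : IsCo A d a P Q c) (k t m : ℕ) (hm : m ≤ k + t)
    (v : V) (hv : v ∈ GF d Q m) : c k t v = 0 := by
  rcases m with _ | m
  · rw [GF_zero h.iB hv, map_zero]
  · have h1 := FI_le h (LinearMap.ker (c k t)) m (fun j s hjs hi q hq => by
      rw [LinearMap.mem_ker]
      refine Subtype.ext ?_
      rw [hc k t j s hjs q hq, if_neg (by omega)]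
      rfl) v (fun l hl hml => hv l hl (by omega))
    exact LinearMap.mem_ker.mp h1

theorem co_A (h : Sys A B d a P d b Q) (hc : IsCo A d a P Q c) (k t : ℕ)
    (hkt : 2 * k + (t + 1) ≤ d) (v : V) :
    c k (t + 1) (A v) = c k t v + a (k + (t + 1)) • c k (t + 1) v := by
  have h1 : c k (t + 1) ∘ₗ A = c k t + a (k + (t + 1)) • c k (t + 1) := by
    refine Sys.map_ext h _ _ fun j s hjs q hq => Subtype.ext ?_
    rw [LinearMap.comp_apply, A_str, map_add, map_smul, LinearMap.add_apply,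
      LinearMap.smul_apply, Submodule.coe_add, Submodule.coe_add, Submodule.coe_smul,
      Submodule.coe_smul, hc k (t + 1) j s hjs q hq, hc k t j s hjs q hq]
    have h2 : (c k (t + 1) (aeval A (str a j (s + 1)) q) : V) =
        if j = k ∧ s = t then q else 0 := by
      by_cases hs : 2 * j + (s + 1) ≤ d
      · rw [hc k (t + 1) j (s + 1) hs q hq]
        congr 1
        simp
      · rw [str_gt h j (s + 1) (by omega) q hq, map_zero, if_neg (by omega)]
        rfl
    rw [h2]
    congr 1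
    split_ifs with h3
    · rw [h3.1, h3.2]
    · rw [smul_zero, smul_zero]
  exact LinearMap.congr_fun h1 v

theorem co_A0 (h : Sys A B d a P d b Q) (hc : IsCo A d a P Q c) (k : ℕ)
    (v : V) : c k 0 (A v) = a k • c k 0 v := by
  have h1 : c k 0 ∘ₗ A = a k • c k 0 := by
    refine Sys.map_ext h _ _ fun j s hjs q hq => Subtype.ext ?_
    rw [LinearMap.comp_apply, A_str, map_add, map_smul,
      LinearMap.smul_apply, Submodule.coe_add, Submodule.coe_smul,
      Submodule.coe_smul, hc k 0 j s hjs q hq]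
    have h2 : (c k 0 (aeval A (str a j (s + 1)) q) : V) = 0 := by
      by_cases hs : 2 * j + (s + 1) ≤ d
      · rw [hc k 0 j (s + 1) hs q hq, if_neg (by omega)]
      · rw [str_gt h j (s + 1) (by omega) q hq, map_zero]
        rfl
    rw [h2, zero_add]
    split_ifs with h3
    · rw [h3.1, h3.2, add_zero]
    · rw [smul_zero, smul_zero]
  exact LinearMap.congr_fun h1 v

/-- the leading coordinate of `A v` -/
theorem co_lead (h : Sys A B d a P d b Q) (hc : IsCo A d a P Q c) (k n : ℕ)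
    (hkn : n + 1 + k ≤ d) (v : V) (hv : v ∈ GF d Q (n + 1)) :
    c k (n + 1 - k) (A v) = c k (n - k) v := by
  rcases Nat.lt_or_ge n k with hnk | hnk
  · rw [show n + 1 - k = 0 by omega, show n - k = 0 by omega, co_A0 h hc,
      co_F h hc k 0 (n + 1) (by omega) v hv, smul_zero]
  · obtain ⟨t, rfl⟩ : ∃ t, n = k + t := ⟨n - k, by omega⟩
    rw [show k + t + 1 - k = t + 1 by omega, show k + t - k = t by omega,
      co_A h hc k t (by omega), co_F h hc k (t + 1) (k + t + 1) (by omega) v hv, smul_zero,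
      add_zero]

/-- reconstruction from the coordinates -/
theorem co_rec (h : Sys A B d a P d b Q) (hc : IsCo A d a P Q c) (v : V) :
    ∑ p ∈ II d, aeval A (str a p.1 p.2) (c p.1 p.2 v : V) = v := by
  have h1 : ∑ p ∈ II d, aeval A (str a p.1 p.2) ∘ₗ (LW d P Q p.1).subtype ∘ₗ c p.1 p.2 =
      LinearMap.id := by
    refine Sys.map_ext h _ _ fun j s hjs q hq => ?_
    rw [LinearMap.sum_apply, LinearMap.id_apply, Finset.sum_eq_single (j, s)]
    · rw [LinearMap.comp_apply, LinearMap.comp_apply, Submodule.subtype_apply,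
        hc j s j s hjs q hq, if_pos ⟨rfl, rfl⟩]
    · intro p hp hpne
      rw [LinearMap.comp_apply, LinearMap.comp_apply, Submodule.subtype_apply,
        hc p.1 p.2 j s hjs q hq, if_neg, map_zero]
      rintro ⟨h1, h2⟩
      exact hpne (Prod.ext h1.symm h2.symm)
    · intro hp
      exact absurd (mem_II.mpr hjs) hp
  have h2 := LinearMap.congr_fun h1 v
  rw [LinearMap.sum_apply] at h2
  exact h2

theorem GF_of_co (h : Sys A B d a P d b Q) (hc : IsCo A d a P Q c) (v : V) (m : ℕ)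
    (hv : ∀ k t, 2 * k + t ≤ d → m ≤ k + t → c k t v = 0) : v ∈ GF d Q m := by
  rw [← co_rec h hc v]
  refine Submodule.sum_mem _ fun p hp => ?_
  rw [mem_II] at hp
  by_cases hm : m ≤ p.1 + p.2
  · rw [hv p.1 p.2 hp hm, Submodule.coe_zero, map_zero]
    exact Submodule.zero_mem _
  · exact GF_mono (by omega) (GF_str h p.1 p.2 _ (c p.1 p.2 v).2)

/-- the cubic relation -/
theorem cubic (iA : Idem A d a P) (β : K)
    (hrec : ∀ i, i + 3 ≤ d → a i - a (i + 3) = (β + 1) * (a (i + 1) - a (i + 2))) :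
    ∃ γ ρ : K, ∀ X : Module.End K V, UP d P Q X → ∀ v : V,
      A (A (A (X v))) - (β + 1) • A (A (X (A v))) + (β + 1) • A (X (A (A v))) - X (A (A (A v))) -
        γ • (A (A (X v)) - X (A (A v))) - ρ • (A (X v) - X (A v)) = 0 := by
  obtain ⟨γ, α, hα, hαa⟩ := exists_extN d a β hrec
  have hρ : ∀ i, α i ^ 2 - β * α i * α (i + 1) + α (i + 1) ^ 2 - γ * (α i + α (i + 1)) =
      α 0 ^ 2 - β * α 0 * α 1 + α 1 ^ 2 - γ * (α 0 + α 1) := by
    intro i
    induction i with
    | zero => rfl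
    | succ i ih =>
      rw [← ih]
      have h1 := hα i
      have e1 : i + 1 + 1 = i + 2 := rfl
      rw [e1]
      linear_combination (α (i + 2) - α i) * h1
  refine ⟨γ, α 0 ^ 2 - β * α 0 * α 1 + α 1 ^ 2 - γ * (α 0 + α 1), fun X hX v => ?_⟩
  set ρ := α 0 ^ 2 - β * α 0 * α 1 + α 1 ^ 2 - γ * (α 0 + α 1) with hρd
  let Z : V →ₗ[K] V := A ∘ₗ A ∘ₗ A ∘ₗ X - (β + 1) • (A ∘ₗ A ∘ₗ X ∘ₗ A) +
    (β + 1) • (A ∘ₗ X ∘ₗ A ∘ₗ A) - X ∘ₗ A ∘ₗ A ∘ₗ A - γ • (A ∘ₗ A ∘ₗ X - X ∘ₗ A ∘ₗ A) -
    ρ • (A ∘ₗ X - X ∘ₗ A)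
  have hZ : ∀ v, Z v = A (A (A (X v))) - (β + 1) • A (A (X (A v))) +
      (β + 1) • A (X (A (A v))) - X (A (A (A v))) -
        γ • (A (A (X v)) - X (A (A v))) - ρ • (A (X v) - X (A v)) := fun v => rfl
  rw [← hZ]
  refine iA.eq_zero _ fun k hk => ?_
  have h1 : P k (Z v) = P k (Z (∑ i ∈ Finset.range (d + 1), P i v)) := by rw [iA.sum]
  rw [h1, map_sum, map_sum]
  refine Finset.sum_eq_zero fun i hi => ?_
  have hi' : i ≤ d := by simpa [Nat.lt_succ_iff] using hi
  have h2 : P k (Z (P i v)) = ((a k - a i) * (a k ^ 2 - β * a k * a i + a i ^ 2 -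
      γ * (a k + a i) - ρ)) • P k (X (P i v)) := by
    rw [hZ]
    simp only [map_sub, map_add, map_smul, iA.eig i hi', iA.comm k hk, smul_smul, ← sub_smul,
      ← add_smul]
    congr 1
    ring
  rw [h2]
  by_cases hik : i + 1 < k ∨ k + 1 < i
  · rw [hX.tri i hi' k hk hik, smul_zero]
  · have h3 : (a k - a i) * (a k ^ 2 - β * a k * a i + a i ^ 2 - γ * (a k + a i) - ρ) = 0 := by
      rcases Nat.lt_trichotomy i k with h4 | h4 | h4
      · have h5 : k = i + 1 := by omega
        have h6 := hρ i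
        rw [hαa i hi', hαa (i + 1) (by omega)] at h6
        rw [h5, ← h6]
        ring
      · rw [h4]; ring
      · have h5 : i = k + 1 := by omega
        have h6 := hρ k
        rw [hαa k hk, hαa (k + 1) (by omega)] at h6
        rw [h5, ← h6]
        ring
    rw [h3, zero_smul]

/-- the recurrence of the leading coordinates -/
theorem co_recur (h : Sys A B d a P d b Q) (hc : IsCo A d a P Q c) (β : K)
    (hrec : ∀ i, i + 3 ≤ d → a i - a (i + 3) = (β + 1) * (a (i + 1) - a (i + 2)))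
    (hX : UP d P Q X) (j k i : ℕ) (hji : j ≤ i) (hik : i + 3 + k ≤ d) (q : V)
    (hq : q ∈ LW d P Q j) :
    c k (i - k) (X (aeval A (str a j (i - j)) q)) -
      (β + 1) • c k (i + 1 - k) (X (aeval A (str a j (i + 1 - j)) q)) +
      (β + 1) • c k (i + 2 - k) (X (aeval A (str a j (i + 2 - j)) q)) -
      c k (i + 3 - k) (X (aeval A (str a j (i + 3 - j)) q)) = 0 := by
  obtain ⟨γ, ρ, hcub⟩ := cubic (Q := Q) h.iA β hrec
  set v0 := aeval A (str a j (i - j)) q with hv0
  set v1 := aeval A (str a j (i + 1 - j)) q with hv1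
  set v2 := aeval A (str a j (i + 2 - j)) q with hv2
  set v3 := aeval A (str a j (i + 3 - j)) q with hv3
  have e0 : A v0 = v1 + a i • v0 := by
    rw [hv0, A_str, hv1, show i - j + 1 = i + 1 - j by omega, show j + (i - j) = i by omega]
  have e1 : A v1 = v2 + a (i + 1) • v1 := by
    rw [hv1, A_str, hv2, show i + 1 - j + 1 = i + 2 - j by omega,
      show j + (i + 1 - j) = i + 1 by omega]
  have e2 : A v2 = v3 + a (i + 2) • v2 := by
    rw [hv2, A_str, hv3, show i + 2 - j + 1 = i + 3 - j by omega,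
      show j + (i + 2 - j) = i + 2 by omega]
  have m0 : v0 ∈ GF d Q (i + 1) := by
    have := GF_str h j (i - j) q hq
    rwa [show j + (i - j) + 1 = i + 1 by omega] at this
  have m1 : v1 ∈ GF d Q (i + 2) := by
    have := GF_str h j (i + 1 - j) q hq
    rwa [show j + (i + 1 - j) + 1 = i + 2 by omega] at this
  have m2 : v2 ∈ GF d Q (i + 3) := by
    have := GF_str h j (i + 2 - j) q hq
    rwa [show j + (i + 2 - j) + 1 = i + 3 by omega] at this
  have n0 := GF_A h m0
  have n00 := GF_A h n0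
  have x0 := GF_UP h.iB hX m0
  have x1 := GF_UP h.iB hX m1
  have x2 := GF_UP h.iB hX m2
  have y0 := GF_UP h.iB hX n0
  have y00 := GF_UP h.iB hX n00
  -- the four leading terms
  have t0 : c k (i + 3 - k) (A (A (A (X v0)))) = c k (i - k) (X v0) := by
    rw [co_lead h hc k (i + 2) (by omega) _ (GF_A h (GF_A h x0)),
      co_lead h hc k (i + 1) (by omega) _ (GF_A h x0), co_lead h hc k i (by omega) _ x0]
  have t1 : c k (i + 3 - k) (A (A (X (A v0)))) = c k (i + 1 - k) (X v1) := by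
    rw [co_lead h hc k (i + 2) (by omega) _ (GF_A h y0),
      co_lead h hc k (i + 1) (by omega) _ y0, e0, map_add, map_add, map_smul, map_smul,
      co_F h hc k (i + 1 - k) (i + 1) (by omega) _ x0, smul_zero, add_zero]
  have t2 : c k (i + 3 - k) (A (X (A (A v0)))) = c k (i + 2 - k) (X v2) := by
    rw [co_lead h hc k (i + 2) (by omega) _ y00]
    have e3 : A (A v0) = v2 + (a (i + 1) • v1 + a i • A v0) := by
      rw [e0, map_add, map_smul, e1, e0]; abel
    rw [e3, map_add, map_add, map_add, map_smul, map_smul, map_add, map_smul, map_smul,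
      co_F h hc k (i + 2 - k) (i + 2) (by omega) _ x1,
      co_F h hc k (i + 2 - k) (i + 2) (by omega) _ y0, smul_zero, smul_zero, add_zero, add_zero]
  have t3 : c k (i + 3 - k) (X (A (A (A v0)))) = c k (i + 3 - k) (X v3) := by
    have e3 : A (A (A v0)) = v3 + (a (i + 2) • v2 + a (i + 1) • A v1 + a i • A (A v0)) := by
      have e4 : A (A v0) = v2 + (a (i + 1) • v1 + a i • A v0) := by
        rw [e0, map_add, map_smul, e1, e0]; abel
      rw [e4, map_add, map_add, map_smul, map_smul, e2, ← e4]; abel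
    rw [e3]
    simp only [map_add, map_smul]
    rw [co_F h hc k (i + 3 - k) (i + 3) (by omega) _ x2,
      co_F h hc k (i + 3 - k) (i + 3) (by omega) _ (GF_UP h.iB hX (GF_A h m1)),
      co_F h hc k (i + 3 - k) (i + 3) (by omega) _ y00, smul_zero, smul_zero, smul_zero,
      add_zero, add_zero, add_zero]
  have t4 : c k (i + 3 - k) (A (A (X v0))) = 0 :=
    co_F h hc k (i + 3 - k) (i + 3) (by omega) _ (GF_A h (GF_A h x0))
  have t5 : c k (i + 3 - k) (X (A (A v0))) = 0 :=
    co_F h hc k (i + 3 - k) (i + 3) (by omega) _ y00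
  have t6 : c k (i + 3 - k) (A (X v0)) = 0 :=
    co_F h hc k (i + 3 - k) (i + 2) (by omega) _ (GF_A h x0)
  have t7 : c k (i + 3 - k) (X (A v0)) = 0 :=
    co_F h hc k (i + 3 - k) (i + 2) (by omega) _ y0
  have h1 := congrArg (c k (i + 3 - k)) (hcub X hX v0)
  rw [map_sub, map_sub, map_sub, map_add, map_sub, map_smul, map_smul, map_smul, map_smul,
    map_sub, map_sub, t0, t1, t2, t3, t4, t5, t6, t7, sub_self, smul_zero, smul_zero,
    sub_zero, sub_zero, map_zero] at h1
  exact h1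

end Pool.Agent.U50.TDU
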