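import Pool.Agent.U50.TDU4

/-! The leading coordinates of the constructed maps, and the reduction to lowering maps. -/

set_option autoImplicit false

namespace Pool.Agent.U50.TDU

open Polynomial Module Pool.Agent.Helper9.TD Pool.Agent.R841.TD
open Pool.Agent.U50.TDA (A_str str_top FI_le)

variable {K : Type*} [Field K] {V : Type*} [AddCommGroup V] [Module K V]

variable {A B : Module.End K V} {d : ℕ} {a b : ℕ → K} {P Q : ℕ → Module.End K V}
  {X : Module.End K V}

theorem rec_zero {M : Type*} [AddCommGroup M] [Module K M] (β : K) (ξ : ℕ → M) (n0 N : ℕ)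
    (hrec : ∀ i, n0 ≤ i → i + 3 ≤ N →
      ξ i - (β + 1) • ξ (i + 1) + (β + 1) • ξ (i + 2) - ξ (i + 3) = 0)
    (h0 : ∀ i, n0 ≤ i → i ≤ N → i ≤ n0 + 2 → ξ i = 0) :
    ∀ i, n0 ≤ i → i ≤ N → ξ i = 0 := by
  intro i
  induction i using Nat.strong_induction_on with
  | _ i ih =>
    intro h1 h2
    by_cases h3 : i ≤ n0 + 2
    · exact h0 i h1 h2 h3
    · obtain ⟨m, rfl⟩ : ∃ m, i = m + 3 := ⟨i - 3, by omega⟩
      have h4 := hrec m (by omega) h2
      rw [ih m (by omega) (by omega) (by omega), ih (m + 1) (by omega) (by omega) (by omega),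
        ih (m + 2) (by omega) (by omega) (by omega), smul_zero, sub_zero, add_zero, zero_sub,
        neg_eq_zero] at h4
      exact h4

theorem rec_zero_down {M : Type*} [AddCommGroup M] [Module K M] (β : K) (ξ : ℕ → M) (n0 N : ℕ)
    (hrec : ∀ i, n0 ≤ i → i + 3 ≤ N →
      ξ i - (β + 1) • ξ (i + 1) + (β + 1) • ξ (i + 2) - ξ (i + 3) = 0)
    (h0 : ∀ i, n0 ≤ i → i ≤ N → N ≤ i + 2 → ξ i = 0) :
    ∀ i, n0 ≤ i → i ≤ N → ξ i = 0 := by
  have key : ∀ n i, i + n = N → n0 ≤ i → ξ i = 0 := by
    intro n
    induction n using Nat.strong_induction_on with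
    | _ n ih =>
      intro i h1 h2
      by_cases h3 : N ≤ i + 2
      · exact h0 i h2 (by omega) h3
      · have h4 := hrec i h2 (by omega)
        rw [ih (n - 1) (by omega) (i + 1) (by omega) (by omega),
          ih (n - 2) (by omega) (i + 2) (by omega) (by omega),
          ih (n - 3) (by omega) (i + 3) (by omega) (by omega), smul_zero, sub_zero, add_zero,
          sub_zero] at h4
        exact h4
  exact fun i h1 h2 => key (N - i) i (by omega) h1

variable {c : ∀ k : ℕ, ℕ → (V →ₗ[K] LW d P Q k)}

theorem lead1 (h : Sys A B d a P d b Q) (hc : IsCo A d a P Q c) (k m t i : ℕ) (hi : i = m + t)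
    (hik : i + k ≤ d) (r : V) (hr : r ∈ LW d P Q m) :
    (c k (i - k) (aeval A (str a m t) r) : V) = if m = k then r else 0 := by
  subst hi
  by_cases hmt : 2 * m + t ≤ d
  · rw [hc k (m + t - k) m t hmt r hr]
    by_cases hmk : m = k
    · rw [if_pos hmk, if_pos ⟨hmk, by omega⟩]
    · rw [if_neg hmk, if_neg (fun h => hmk h.1)]
  · rw [str_gt h m t (by omega) r hr, map_zero, if_neg (by omega)]
    rfl

theorem lead2 (h : Sys A B d a P d b Q) (hc : IsCo A d a P Q c) (k m t i : ℕ)
    (hi : i = m + t + 1) (hik : i + k ≤ d) (e : K) (r : V) (hr : r ∈ LW d P Q m) :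
    (c k (i - k) (aeval A ((Polynomial.X - C e) * str a m t) r) : V) = if m = k then r else 0 := by
  subst hi
  have hm := GF_str h m t r hr
  rw [aeval_lin, map_sub, map_smul, co_F h hc k (m + t + 1 - k) (m + t + 1) (by omega) _ hm,
    smul_zero, sub_zero, co_lead h hc k (m + t) (by omega) _ hm]
  exact lead1 h hc k m t (m + t) rfl (by omega) r hr

theorem lead3 (h : Sys A B d a P d b Q) (hc : IsCo A d a P Q c) (k m t i : ℕ)
    (hi : i = m + t + 1) (hik : i + k ≤ d) (r : V) (hr : r ∈ LW d P Q m) :
    (c k (i - k) (A (aeval A (str a m t) r)) : V) = if m = k then r else 0 := by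
  have h1 := lead2 h hc k m t i hi hik 0 r hr
  rwa [C_0, sub_zero, map_mul, aeval_X, Module.End.mul_apply] at h1

/-- the leading coordinate of `X` -/
noncomputable def Xi (A : Module.End K V) (a : ℕ → K) (c : ∀ k : ℕ, ℕ → (V →ₗ[K] LW d P Q k))
    (X : Module.End K V) (j k i : ℕ) : LW d P Q j →ₗ[K] LW d P Q k :=
  c k (i - k) ∘ₗ X ∘ₗ aeval A (str a j (i - j)) ∘ₗ (LW d P Q j).subtype

theorem Xi_apply (X : Module.End K V) (j k i : ℕ) (q : LW d P Q j) :
    Xi A a c X j k i q = c k (i - k) (X (aeval A (str a j (i - j)) (q : V))) := rfl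

theorem Xi_sub (X X' : Module.End K V) (j k i : ℕ) :
    Xi A a c (X - X') j k i = Xi A a c X j k i - Xi A a c X' j k i := by
  refine LinearMap.ext fun q => ?_
  rw [LinearMap.sub_apply, Xi_apply, Xi_apply, Xi_apply, LinearMap.sub_apply, map_sub]

theorem Xi_low (h : Sys A B d a P d b Q) (hc : IsCo A d a P Q c) (hX : UP d P Q X) (j k i : ℕ)
    (hji : j ≤ i) (hik : i < k) : Xi A a c X j k i = 0 := by
  refine LinearMap.ext fun q => ?_
  rw [Xi_apply, LinearMap.zero_apply]
  have h1 := GF_UP h.iB hX (GF_str h j (i - j) q q.2)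
  exact co_F h hc k (i - k) (j + (i - j) + 1) (by omega) _ h1

theorem Xi_high (h : Sys A B d a P d b Q) (j k i : ℕ) (hij : d < i + j) (hji : j ≤ i) :
    Xi A a c X j k i = 0 := by
  refine LinearMap.ext fun q => ?_
  rw [Xi_apply, LinearMap.zero_apply, str_gt h j (i - j) (by omega) q q.2, map_zero, map_zero]

theorem Xi_zero (h : Sys A B d a P d b Q) (hc : IsCo A d a P Q c) (β : K)
    (hrec : ∀ i, i + 3 ≤ d → a i - a (i + 3) = (β + 1) * (a (i + 1) - a (i + 2)))
    (hX : UP d P Q X) (j k : ℕ)
    (h1 : j ≤ k → ∀ i, j ≤ i → i + k ≤ d → i ≤ j + 2 → Xi A a c X j k i = 0)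
    (h2 : k < j → ∀ i, j ≤ i → i + k ≤ d → d ≤ i + k + 2 → Xi A a c X j k i = 0) (i : ℕ)
    (hji : j ≤ i) (hik : i + k ≤ d) : Xi A a c X j k i = 0 := by
  have hr : ∀ i, j ≤ i → i + 3 ≤ d - k → Xi A a c X j k i - (β + 1) • Xi A a c X j k (i + 1) +
      (β + 1) • Xi A a c X j k (i + 2) - Xi A a c X j k (i + 3) = 0 := by
    intro i h3 h4
    refine LinearMap.ext fun q => ?_
    exact co_recur h hc β hrec hX j k i h3 (by omega) q q.2
  rcases Nat.lt_or_ge k j with hkj | hjk
  · exact rec_zero_down β (Xi A a c X j k) j (d - k) hr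
      (fun i h3 h4 h5 => h2 hkj i h3 (by omega) (by omega)) i hji (by omega)
  · exact rec_zero β (Xi A a c X j k) j (d - k) hr
      (fun i h3 h4 h5 => h1 hjk i h3 (by omega) h5) i hji (by omega)

/-- if all leading coordinates vanish then the map is lowering -/
theorem SL_of_Xi (h : Sys A B d a P d b Q) (hc : IsCo A d a P Q c) (hX : UP d P Q X)
    (h1 : ∀ j k i, j ≤ i → k ≤ i → i + k ≤ d → Xi A a c X j k i = 0) : SL d P Q X where
  tri := hX.tri
  low := by
    have key : ∀ i ≤ d, ∀ v ∈ GF d Q (i + 1), X v ∈ GF d Q i := by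
      intro i hi v hv
      have h2 := FI_le h ((GF d Q i).comap X) i (fun j s hjs hji q hq => by
        rw [Submodule.mem_comap]
        have h3 := GF_UP h.iB hX (GF_str h j s q hq)
        refine GF_mono (m := j + s) (by omega) ?_
        refine GF_of_co h hc _ _ fun k t hkt hle => ?_
        rcases Nat.lt_or_ge (j + s) (k + t) with h4 | h4
        · exact co_F h hc k t (j + s + 1) (by omega) _ h3
        · have h5 := LinearMap.congr_fun (h1 j k (j + s) (by omega) (by omega) (by omega)) ⟨q, hq⟩
          rw [Xi_apply, show j + s - k = t by omega, show j + s - j = s by omega] at h5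
          exact h5) v (fun l hl hml => hv l hl (by omega))
      exact Submodule.mem_comap.mp h2
    intro i hi k hk hik v
    refine key i hi (Q i v) (fun l hl hil => ?_) k hk hik
    rw [h.iB.orth l hl i hi, if_neg (by omega)]

/-! the three kinds of maps -/

theorem Xi_Y (h : Sys A B d a P d b Q) (hc : IsCo A d a P Q c) (β : K) {Y : Module.End K V}
    (e f f' : ∀ j, LW d P Q j →ₗ[K] LW d P Q j)
    (g : ∀ j, LW d P Q j →ₗ[K] LW d P Q (j + 2)) (l : ∀ j, LW d P Q (j + 2) →ₗ[K] LW d P Q j)
    (hY : YFml A d a β e f f' g l Y) (j k i : ℕ) (hji : j ≤ i) (hik : i + k ≤ d)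
    (q : LW d P Q j) :
    (Xi A a c Y j k i q : V) =
      (if j = k then (e j q : V) + TT β (i - j) • (f j q : V) + TT β (i - j - 1) • (f' j q : V)
        else 0) + (if j + 2 = k then TT β (i - j - 1) • (g j q : V) else 0) +
      (if j = k + 2 then TT β (d + 1 - j - i) • l2 l j q else 0) := by
  obtain ⟨s, rfl⟩ : ∃ s, i = j + s := ⟨i - j, by omega⟩
  rw [Xi_apply, show j + s - j = s by omega]
  by_cases hjs : 2 * j + s ≤ d
  · rw [hY j s hjs q, YF]
    simp only [map_add, map_smul, Submodule.coe_add, Submodule.coe_smul]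
    rw [lead1 h hc k j s (j + s) rfl hik _ (e j q).2]
    have t2 : TT β s • (c k (j + s - k) (aeval A ((Polynomial.X - C (a (d - j))) * str a j (s - 1))
        (f j q : V)) : V) = if j = k then TT β s • (f j q : V) else 0 := by
      rcases Nat.eq_zero_or_pos s with hs | hs
      · rw [hs, show TT β 0 = 0 from rfl, zero_smul, zero_smul, ite_self]
      · rw [lead2 h hc k j (s - 1) (j + s) (by omega) hik _ _ (f j q).2]
        split_ifs
        · rfl
        · rw [smul_zero]
    have t3 : TT β (s - 1) • (c k (j + s - k)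
        (aeval A ((Polynomial.X - C (a (d - j))) * str a j (s - 1))
        (f' j q : V)) : V) = if j = k then TT β (s - 1) • (f' j q : V) else 0 := by
      rcases Nat.eq_zero_or_pos s with hs | hs
      · rw [hs, show TT β (0 - 1) = 0 from rfl, zero_smul, zero_smul, ite_self]
      · rw [lead2 h hc k j (s - 1) (j + s) (by omega) hik _ _ (f' j q).2]
        split_ifs
        · rfl
        · rw [smul_zero]
    have t4 : TT β (s - 1) • (c k (j + s - k) (aeval A (str a (j + 1) (s - 2)) (g j q : V)) : V) =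
        if j + 2 = k then TT β (s - 1) • (g j q : V) else 0 := by
      rcases Nat.lt_or_ge s 2 with hs | hs
      · rw [show s - 1 = 0 by omega, show TT β 0 = 0 from rfl, zero_smul, zero_smul, ite_self]
      · rcases Nat.lt_or_ge s 3 with hs3 | hs3
        · have h5 := lead1 h hc k (j + 2) 0 (j + s) (by omega) hik _ (g j q).2
          rw [str_zero] at h5
          rw [show s - 2 = 0 by omega, str_zero, h5]
          split_ifs
          · rfl
          · rw [smul_zero]
        · rw [show s - 2 = (s - 3) + 1 by omega, str_succ',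
            lead2 h hc k (j + 2) (s - 3) (j + s) (by omega) hik _ _ (g j q).2]
          split_ifs
          · rfl
          · rw [smul_zero]
    have t5 : TT β (d + 1 - 2 * j - s) • (c k (j + s - k)
        (aeval A ((Polynomial.X - C (a (d + 2 - j))) * str a (j - 2) (s + 1)) (l2 l j q)) : V) =
        if j = k + 2 then TT β (d + 1 - j - (j + s)) • l2 l j q else 0 := by
      rcases Nat.lt_or_ge j 2 with hj | hj
      · rw [l2_zero l j hj, map_zero, map_zero, Submodule.coe_zero, smul_zero, smul_zero, ite_self]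
      · rw [lead2 h hc k (j - 2) (s + 1) (j + s) (by omega) hik _ _ (l2_mem l j q),
          show d + 1 - 2 * j - s = d + 1 - j - (j + s) by omega]
        by_cases hjk : j = k + 2
        · rw [if_pos hjk, if_pos (by omega)]
        · rw [if_neg hjk, if_neg (by omega), smul_zero]
    rw [t2, t3, t4, t5]
    congr 1
    congr 1
    split_ifs
    · rfl
    · rw [add_zero, add_zero]
  · rw [str_gt h j s (by omega) q q.2, map_zero, map_zero, Submodule.coe_zero,
      if_neg (by omega), if_neg (by omega), show d + 1 - j - (j + s) = 0 by omega,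
      show TT β 0 = 0 from rfl, zero_smul, ite_self, add_zero, add_zero]

theorem Xi_AL (h : Sys A B d a P d b Q) (hc : IsCo A d a P Q c) (β : K) {Λ : Module.End K V}
    (g : ∀ j, LW d P Q j →ₗ[K] LW d P Q (j + 1)) (z : ∀ j, LW d P Q (j + 1) →ₗ[K] LW d P Q j)
    (hY : Fml A d a P Q β (fun _ => 0) g z Λ) (j k i : ℕ) (hji : j ≤ i) (hik : i + k ≤ d)
    (q : LW d P Q j) :
    (Xi A a c (A * Λ) j k i q : V) =
      (if j + 1 = k then TT β (i - j - 1) • (g j q : V) else 0) +
      (if j = k + 1 then TT β (d + 1 - j - i) • zV z j q else 0) := by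
  obtain ⟨s, rfl⟩ : ∃ s, i = j + s := ⟨i - j, by omega⟩
  rw [Xi_apply, show j + s - j = s by omega, Module.End.mul_apply]
  by_cases hjs : 2 * j + s ≤ d
  · rw [hY j s hjs q, LinearMap.zero_apply, Submodule.coe_zero, map_zero, smul_zero, zero_add]
    simp only [map_add, map_smul, Submodule.coe_add, Submodule.coe_smul]
    congr 1
    · rcases Nat.lt_or_ge s 2 with hs | hs
      · rw [show s - 1 = 0 by omega, show TT β 0 = 0 from rfl, zero_smul, zero_smul, ite_self]
      · rw [lead3 h hc k (j + 1) (s - 2) (j + s) (by omega) hik _ (g j q).2]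
        split_ifs
        · rfl
        · rw [smul_zero]
    · rcases Nat.eq_zero_or_pos j with hj | hj
      · subst hj
        have : zV z 0 q = 0 := rfl
        rw [this, map_zero, map_zero, map_zero, Submodule.coe_zero, smul_zero, smul_zero, ite_self]
      · rw [lead3 h hc k (j - 1) s (j + s) (by omega) hik _ (zV_mem z j q),
          show d + 1 - 2 * j - s = d + 1 - j - (j + s) by omega]
        by_cases hjk : j = k + 1
        · rw [if_pos hjk, if_pos (by omega)]
        · rw [if_neg hjk, if_neg (by omega), smul_zero]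
  · rw [str_gt h j s (by omega) q q.2, map_zero, map_zero, map_zero, Submodule.coe_zero,
      if_neg (by omega), show d + 1 - j - (j + s) = 0 by omega,
      show TT β 0 = 0 from rfl, zero_smul, ite_self, add_zero]

theorem Xi_LA (h : Sys A B d a P d b Q) (hc : IsCo A d a P Q c) (β : K) {Λ : Module.End K V}
    (hΛ : SL d P Q Λ)
    (g : ∀ j, LW d P Q j →ₗ[K] LW d P Q (j + 1)) (z : ∀ j, LW d P Q (j + 1) →ₗ[K] LW d P Q j)
    (hY : Fml A d a P Q β (fun _ => 0) g z Λ) (j k i : ℕ) (hji : j ≤ i) (hik : i + k ≤ d)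
    (q : LW d P Q j) :
    (Xi A a c (Λ * A) j k i q : V) =
      (if j + 1 = k then TT β (i - j) • (g j q : V) else 0) +
      (if j = k + 1 then TT β (d - j - i) • zV z j q else 0) := by
  obtain ⟨s, rfl⟩ : ∃ s, i = j + s := ⟨i - j, by omega⟩
  rw [Xi_apply, show j + s - j = s by omega, Module.End.mul_apply, A_str, map_add, map_smul,
    map_add, map_smul, co_F h hc k (j + s - k) (j + s) (by omega) _
      (GF_SL h.iB hΛ (GF_str h j s q q.2)), smul_zero, add_zero]
  by_cases hjs : 2 * j + (s + 1) ≤ d
  · rw [hY j (s + 1) hjs q, LinearMap.zero_apply, Submodule.coe_zero, map_zero, smul_zero,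
      zero_add]
    simp only [map_add, map_smul, Submodule.coe_add, Submodule.coe_smul]
    congr 1
    · rcases Nat.eq_zero_or_pos s with hs | hs
      · rw [hs, show TT β (0 + 1 - 1) = 0 from rfl, zero_smul, zero_smul, ite_self]
      · rw [show s + 1 - 2 = s - 1 by omega,
          lead1 h hc k (j + 1) (s - 1) (j + s) (by omega) hik _ (g j q).2, Nat.add_sub_cancel]
        split_ifs
        · rfl
        · rw [smul_zero]
    · rcases Nat.eq_zero_or_pos j with hj | hj
      · subst hj
        have : zV z 0 q = 0 := rfl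
        rw [this, map_zero, map_zero, Submodule.coe_zero, smul_zero, smul_zero, ite_self]
      · rw [lead1 h hc k (j - 1) (s + 1) (j + s) (by omega) hik _ (zV_mem z j q),
          show d + 1 - 2 * j - (s + 1) = d - j - (j + s) by omega]
        by_cases hjk : j = k + 1
        · rw [if_pos hjk, if_pos (by omega)]
        · rw [if_neg hjk, if_neg (by omega), smul_zero]
  · rw [str_gt h j (s + 1) (by omega) q q.2, map_zero, map_zero, Submodule.coe_zero,
      if_neg (by omega), show d - j - (j + s) = 0 by omega,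
      show TT β 0 = 0 from rfl, zero_smul, ite_self, add_zero]

end Pool.Agent.U50.TDU
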