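import Pool.Agent.U50.TDU5

/-! The values at the nine positions determine the map modulo the lowering maps. -/

set_option autoImplicit false

namespace Pool.Agent.U50.TDU

open Polynomial Module Pool.Agent.Helper9.TD Pool.Agent.R841.TD
open Pool.Agent.U50.TDA (A_str str_top FI_le)

variable {K : Type*} [Field K] {V : Type*} [AddCommGroup V] [Module K V]

variable {A B : Module.End K V} {d : ℕ} {a b : ℕ → K} {P Q : ℕ → Module.End K V}
  {X : Module.End K V} {c : ∀ k : ℕ, ℕ → (V →ₗ[K] LW d P Q k)}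

/-- the values at the nine positions -/
structure Pos (A : Module.End K V) (d : ℕ) (a : ℕ → K) (c : ∀ k : ℕ, ℕ → (V →ₗ[K] LW d P Q k))
    (v1 v2 v3 : ∀ j, LW d P Q j →ₗ[K] LW d P Q j)
    (v4 v5 : ∀ j, LW d P Q j →ₗ[K] LW d P Q (j + 1))
    (v6 : ∀ j, LW d P Q j →ₗ[K] LW d P Q (j + 2))
    (v7 v8 : ∀ j, LW d P Q (j + 1) →ₗ[K] LW d P Q j)
    (v9 : ∀ j, LW d P Q (j + 2) →ₗ[K] LW d P Q j) (X : Module.End K V) : Prop where
  p1 : ∀ j, 2 * j ≤ d → Xi A a c X j j j = v1 j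
  p2 : ∀ j, 2 * j + 1 ≤ d → Xi A a c X j j (j + 1) = v2 j
  p3 : ∀ j, 2 * j + 2 ≤ d → Xi A a c X j j (j + 2) = v3 j
  p4 : ∀ j, 2 * j + 2 ≤ d → Xi A a c X j (j + 1) (j + 1) = v4 j
  p5 : ∀ j, 2 * j + 3 ≤ d → Xi A a c X j (j + 1) (j + 2) = v5 j
  p6 : ∀ j, 2 * j + 4 ≤ d → Xi A a c X j (j + 2) (j + 2) = v6 j
  p7 : ∀ j, 2 * j + 2 ≤ d → Xi A a c X (j + 1) j (d - j - 1) = v7 j
  p8 : ∀ j, 2 * j + 3 ≤ d → Xi A a c X (j + 1) j (d - j - 2) = v8 j
  p9 : ∀ j, 2 * j + 4 ≤ d → Xi A a c X (j + 2) j (d - j - 2) = v9 j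

theorem Pos.SL (h : Sys A B d a P d b Q) (hc : IsCo A d a P Q c) (β : K)
    (hrec : ∀ i, i + 3 ≤ d → a i - a (i + 3) = (β + 1) * (a (i + 1) - a (i + 2)))
    (hX : UP d P Q X)
    (hp : Pos A d a c (fun _ => 0) (fun _ => 0) (fun _ => 0) (fun _ => 0) (fun _ => 0) (fun _ => 0)
      (fun _ => 0) (fun _ => 0) (fun _ => 0) X) : SL d P Q X := by
  refine SL_of_Xi h hc hX fun j k i hji _ hik => Xi_zero h hc β hrec hX j k ?_ ?_ i hji hik
  · intro hjk i hji hik hi2
    rcases Nat.lt_or_ge i k with h1 | h1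
    · exact Xi_low h hc hX j k i hji h1
    · obtain ⟨m, rfl⟩ : ∃ m, k = j + m := ⟨k - j, by omega⟩
      obtain ⟨n, rfl⟩ : ∃ n, i = j + n := ⟨i - j, by omega⟩
      have hn : n = 0 ∨ n = 1 ∨ n = 2 := by omega
      have hm : m = 0 ∨ m = 1 ∨ m = 2 := by omega
      rcases hn with rfl | rfl | rfl <;> rcases hm with rfl | rfl | rfl
      · exact hp.p1 j (by omega)
      · omega
      · omega
      · exact hp.p2 j (by omega)
      · exact hp.p4 j (by omega)
      · omega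
      · exact hp.p3 j (by omega)
      · exact hp.p5 j (by omega)
      · exact hp.p6 j (by omega)
  · intro hkj i hji hik hi2
    rcases Nat.lt_or_ge d (i + j) with h1 | h1
    · exact Xi_high h j k i h1 hji
    · obtain ⟨m, rfl⟩ : ∃ m, j = k + m := ⟨j - k, by omega⟩
      have hm : m = 1 ∨ m = 2 := by omega
      rcases hm with rfl | rfl
      · have hi : i = d - k - 1 ∨ i = d - k - 2 := by omega
        rcases hi with rfl | rfl
        · exact hp.p7 k (by omega)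
        · exact hp.p8 k (by omega)
      · have hi : i = d - k - 2 := by omega
        rw [hi]
        exact hp.p9 k (by omega)

theorem Xi_add (X X' : Module.End K V) (j k i : ℕ) :
    Xi A a c (X + X') j k i = Xi A a c X j k i + Xi A a c X' j k i := by
  refine LinearMap.ext fun q => ?_
  rw [LinearMap.add_apply, Xi_apply, Xi_apply, Xi_apply, LinearMap.add_apply, map_add]

theorem Xi_SL (h : Sys A B d a P d b Q) (hc : IsCo A d a P Q c) (hX : SL d P Q X) (j k i : ℕ)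
    (hji : j ≤ i) (hki : k ≤ i) : Xi A a c X j k i = 0 := by
  refine LinearMap.ext fun q => ?_
  rw [Xi_apply, LinearMap.zero_apply]
  exact co_F h hc k (i - k) (j + (i - j)) (by omega) _ (GF_SL h.iB hX (GF_str h j (i - j) q q.2))

theorem TT0 (β : K) : TT β 0 = 0 := rfl

theorem TT1 (β : K) : TT β 1 = 1 := rfl

theorem TT2 (β : K) : TT β 2 = β + 1 := by
  show β * 1 - 0 + 1 = β + 1
  ring

/-- the leading coordinates of the general map -/
theorem Xi_all (h : Sys A B d a P d b Q) (hc : IsCo A d a P Q c) (β : K)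
    {Y Λ1 Λ2 Λ3 : Module.End K V}
    {e f f' : ∀ j, LW d P Q j →ₗ[K] LW d P Q j}
    {g : ∀ j, LW d P Q j →ₗ[K] LW d P Q (j + 2)} {l : ∀ j, LW d P Q (j + 2) →ₗ[K] LW d P Q j}
    {g2 g3 : ∀ j, LW d P Q j →ₗ[K] LW d P Q (j + 1)}
    {z2 z3 : ∀ j, LW d P Q (j + 1) →ₗ[K] LW d P Q j}
    (hY : YFml A d a β e f f' g l Y) (h1 : SL d P Q Λ1)
    (h2 : Fml A d a P Q β (fun _ => 0) g2 z2 Λ2) (h3 : Fml A d a P Q β (fun _ => 0) g3 z3 Λ3)
    (hΛ3 : SL d P Q Λ3)
    (j k i : ℕ) (hji : j ≤ i) (hki : k ≤ i) (hik : i + k ≤ d) (q : LW d P Q j) :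
    (Xi A a c (Y + Λ1 + A * Λ2 + Λ3 * A) j k i q : V) =
      ((if j = k then (e j q : V) + TT β (i - j) • (f j q : V) + TT β (i - j - 1) • (f' j q : V)
        else 0) + (if j + 2 = k then TT β (i - j - 1) • (g j q : V) else 0) +
      (if j = k + 2 then TT β (d + 1 - j - i) • l2 l j q else 0)) +
      ((if j + 1 = k then TT β (i - j - 1) • (g2 j q : V) else 0) +
      (if j = k + 1 then TT β (d + 1 - j - i) • zV z2 j q else 0)) +
      ((if j + 1 = k then TT β (i - j) • (g3 j q : V) else 0) +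
      (if j = k + 1 then TT β (d - j - i) • zV z3 j q else 0)) := by
  rw [Xi_add, Xi_add, Xi_add, LinearMap.add_apply, LinearMap.add_apply, LinearMap.add_apply,
    Submodule.coe_add, Submodule.coe_add, Submodule.coe_add,
    Xi_Y h hc β e f f' g l hY j k i hji hik, Xi_SL h hc h1 j k i hji hki,
    Xi_AL h hc β g2 z2 h2 j k i hji hik, Xi_LA h hc β hΛ3 g3 z3 h3 j k i hji hik,
    LinearMap.zero_apply, Submodule.coe_zero, add_zero]

/-- the nine values of the general map -/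
theorem Pos_all (h : Sys A B d a P d b Q) (hc : IsCo A d a P Q c) (β : K)
    {Y Λ1 Λ2 Λ3 : Module.End K V}
    {e f f' : ∀ j, LW d P Q j →ₗ[K] LW d P Q j}
    {g : ∀ j, LW d P Q j →ₗ[K] LW d P Q (j + 2)} {l : ∀ j, LW d P Q (j + 2) →ₗ[K] LW d P Q j}
    {g2 g3 : ∀ j, LW d P Q j →ₗ[K] LW d P Q (j + 1)}
    {z2 z3 : ∀ j, LW d P Q (j + 1) →ₗ[K] LW d P Q j}
    (hY : YFml A d a β e f f' g l Y) (h1 : SL d P Q Λ1)
    (h2 : Fml A d a P Q β (fun _ => 0) g2 z2 Λ2) (h3 : Fml A d a P Q β (fun _ => 0) g3 z3 Λ3)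
    (hΛ3 : SL d P Q Λ3) :
    Pos A d a c e (fun j => e j + f j) (fun j => e j + (β + 1) • f j + f' j) g3
      (fun j => g2 j + (β + 1) • g3 j) g z2 (fun j => (β + 1) • z2 j + z3 j) l
      (Y + Λ1 + A * Λ2 + Λ3 * A) := by
  have key := Xi_all h hc β hY h1 h2 h3 hΛ3
  constructor
  · intro j hj
    refine LinearMap.ext fun q => Subtype.ext ?_
    rw [key j j j (by omega) (by omega) (by omega) q, if_pos rfl, if_neg (by omega),
      if_neg (by omega), if_neg (by omega), if_neg (by omega), if_neg (by omega),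
      if_neg (by omega), show j - j = 0 by omega, TT0]
    simp
  · intro j hj
    refine LinearMap.ext fun q => Subtype.ext ?_
    rw [key j j (j + 1) (by omega) (by omega) (by omega) q, if_pos rfl, if_neg (by omega),
      if_neg (by omega), if_neg (by omega), if_neg (by omega), if_neg (by omega),
      if_neg (by omega), show j + 1 - j = 1 by omega, TT1, show TT β (1 - 1) = 0 from rfl]
    simp
  · intro j hj
    refine LinearMap.ext fun q => Subtype.ext ?_
    rw [key j j (j + 2) (by omega) (by omega) (by omega) q, if_pos rfl, if_neg (by omega),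
      if_neg (by omega), if_neg (by omega), if_neg (by omega), if_neg (by omega),
      if_neg (by omega), show j + 2 - j = 2 by omega, TT2, show TT β (2 - 1) = 1 from rfl]
    simp
  · intro j hj
    refine LinearMap.ext fun q => Subtype.ext ?_
    rw [key j (j + 1) (j + 1) (by omega) (by omega) (by omega) q, if_neg (by omega),
      if_neg (by omega), if_neg (by omega), if_pos rfl, if_neg (by omega), if_pos rfl,
      if_neg (by omega), show j + 1 - j = 1 by omega, TT1, show TT β (1 - 1) = 0 from rfl]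
    simp
  · intro j hj
    refine LinearMap.ext fun q => Subtype.ext ?_
    rw [key j (j + 1) (j + 2) (by omega) (by omega) (by omega) q, if_neg (by omega),
      if_neg (by omega), if_neg (by omega), if_pos rfl, if_neg (by omega), if_pos rfl,
      if_neg (by omega), show j + 2 - j = 2 by omega, TT2, show TT β (2 - 1) = 1 from rfl]
    simp
  · intro j hj
    refine LinearMap.ext fun q => Subtype.ext ?_
    rw [key j (j + 2) (j + 2) (by omega) (by omega) (by omega) q, if_neg (by omega), if_pos rfl,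
      if_neg (by omega), if_neg (by omega), if_neg (by omega), if_neg (by omega),
      if_neg (by omega), show j + 2 - j = 2 by omega, show TT β (2 - 1) = 1 from rfl]
    simp
  · intro j hj
    refine LinearMap.ext fun q => Subtype.ext ?_
    rw [key (j + 1) j (d - j - 1) (by omega) (by omega) (by omega) q, if_neg (by omega),
      if_neg (by omega), if_neg (by omega), if_neg (by omega), if_pos rfl, if_neg (by omega),
      if_pos rfl, show d + 1 - (j + 1) - (d - j - 1) = 1 by omega,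
      show d - (j + 1) - (d - j - 1) = 0 by omega, TT1, TT0]
    simp [zV]
  · intro j hj
    refine LinearMap.ext fun q => Subtype.ext ?_
    rw [key (j + 1) j (d - j - 2) (by omega) (by omega) (by omega) q, if_neg (by omega),
      if_neg (by omega), if_neg (by omega), if_neg (by omega), if_pos rfl, if_neg (by omega),
      if_pos rfl, show d + 1 - (j + 1) - (d - j - 2) = 2 by omega,
      show d - (j + 1) - (d - j - 2) = 1 by omega, TT1, TT2]
    simp [zV]
  · intro j hj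
    refine LinearMap.ext fun q => Subtype.ext ?_
    rw [key (j + 2) j (d - j - 2) (by omega) (by omega) (by omega) q, if_neg (by omega),
      if_neg (by omega), if_pos rfl, if_neg (by omega), if_neg (by omega), if_neg (by omega),
      if_neg (by omega), show d + 1 - (j + 2) - (d - j - 2) = 1 by omega, TT1]
    simp [l2]

theorem Fml.zeroSL (h : Sys A B d a P d b Q) (β : K)
    (hrec : ∀ i, i + 3 ≤ d → a i - a (i + 3) = (β + 1) * (a (i + 1) - a (i + 2)))
    {Λ : Module.End K V} {f : ∀ j, LW d P Q j →ₗ[K] LW d P Q j}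
    {g : ∀ j, LW d P Q j →ₗ[K] LW d P Q (j + 1)}
    {z : ∀ j, LW d P Q (j + 1) →ₗ[K] LW d P Q j} (hΛ : Fml A d a P Q β f g z Λ) :
    SL d P Q Λ := Fml.SL h β hrec f g z hΛ

/-- the general map satisfies the two conditions -/
theorem UP_all (h : Sys A B d a P d b Q)
    {Y Λ1 Λ2 Λ3 : Module.End K V} (hY : UP d P Q Y) (h1 : SL d P Q Λ1) (h2 : SL d P Q Λ2)
    (h3 : SL d P Q Λ3) : UP d P Q (Y + Λ1 + A * Λ2 + Λ3 * A) :=
  ((hY.add (UP.of_SL h1)).add (UP.A_mul h h2)).add (UP.mul_A h h3)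

theorem SL_zero : SL d P Q (0 : Module.End K V) where
  low := fun i _ k _ _ v => by rw [LinearMap.zero_apply, map_zero]
  tri := fun i _ k _ _ v => by rw [LinearMap.zero_apply, map_zero]

/-- there are maps with given values -/
theorem exists_Pos (h : Sys A B d a P d b Q) (hc : IsCo A d a P Q c) (β : K)
    (hrec : ∀ i, i + 3 ≤ d → a i - a (i + 3) = (β + 1) * (a (i + 1) - a (i + 2)))
    (v1 v2 v3 : ∀ j, LW d P Q j →ₗ[K] LW d P Q j)
    (v4 v5 : ∀ j, LW d P Q j →ₗ[K] LW d P Q (j + 1))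
    (v6 : ∀ j, LW d P Q j →ₗ[K] LW d P Q (j + 2))
    (v7 v8 : ∀ j, LW d P Q (j + 1) →ₗ[K] LW d P Q j)
    (v9 : ∀ j, LW d P Q (j + 2) →ₗ[K] LW d P Q j) :
    ∃ Y Λ2 Λ3 : Module.End K V,
      YFml A d a β v1 (fun j => v2 j - v1 j)
        (fun j => v3 j - v1 j - (β + 1) • (v2 j - v1 j)) v6 v9 Y ∧
      Fml A d a P Q β (fun _ => 0) (fun j => v5 j - (β + 1) • v4 j) v7 Λ2 ∧
      Fml A d a P Q β (fun _ => 0) v4 (fun j => v8 j - (β + 1) • v7 j) Λ3 ∧
      Pos A d a c v1 v2 v3 v4 v5 v6 v7 v8 v9 (Y + A * Λ2 + Λ3 * A) := by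
  obtain ⟨Y, hY⟩ := Sys.exists_Y h β v1 (fun j => v2 j - v1 j)
        (fun j => v3 j - v1 j - (β + 1) • (v2 j - v1 j)) v6 v9
  obtain ⟨Λ2, hΛ2⟩ := Sys.exists_X h β (fun _ => 0) (fun j => v5 j - (β + 1) • v4 j) v7
  obtain ⟨Λ3, hΛ3⟩ := Sys.exists_X h β (fun _ => 0) v4 (fun j => v8 j - (β + 1) • v7 j)
  refine ⟨Y, Λ2, Λ3, hY, hΛ2, hΛ3, ?_⟩
  have h1 := Pos_all h hc β hY SL_zero hΛ2 hΛ3 (Fml.zeroSL h β hrec hΛ3)
  rw [add_zero] at h1
  have e2 : ∀ j, v1 j + (v2 j - v1 j) = v2 j := fun j => by abel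
  have e3 : ∀ j, v1 j + (β + 1) • (v2 j - v1 j) + (v3 j - v1 j - (β + 1) • (v2 j - v1 j)) =
      v3 j := fun j => by abel
  have e5 : ∀ j, v5 j - (β + 1) • v4 j + (β + 1) • v4 j = v5 j := fun j => by abel
  have e8 : ∀ j, (β + 1) • v7 j + (v8 j - (β + 1) • v7 j) = v8 j := fun j => by abel
  simp only [e2, e3, e5, e8] at h1
  exact h1

theorem Pos.sub {X' : Module.End K V}
    {v1 v2 v3 v1' v2' v3' : ∀ j, LW d P Q j →ₗ[K] LW d P Q j}
    {v4 v5 v4' v5' : ∀ j, LW d P Q j →ₗ[K] LW d P Q (j + 1)}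
    {v6 v6' : ∀ j, LW d P Q j →ₗ[K] LW d P Q (j + 2)}
    {v7 v8 v7' v8' : ∀ j, LW d P Q (j + 1) →ₗ[K] LW d P Q j}
    {v9 v9' : ∀ j, LW d P Q (j + 2) →ₗ[K] LW d P Q j}
    (h : Pos A d a c v1 v2 v3 v4 v5 v6 v7 v8 v9 X)
    (h' : Pos A d a c v1' v2' v3' v4' v5' v6' v7' v8' v9' X') :
    Pos A d a c (fun j => v1 j - v1' j) (fun j => v2 j - v2' j) (fun j => v3 j - v3' j)
      (fun j => v4 j - v4' j) (fun j => v5 j - v5' j) (fun j => v6 j - v6' j)
      (fun j => v7 j - v7' j) (fun j => v8 j - v8' j) (fun j => v9 j - v9' j) (X - X') where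
  p1 := fun j hj => by rw [Xi_sub, h.p1 j hj, h'.p1 j hj]
  p2 := fun j hj => by rw [Xi_sub, h.p2 j hj, h'.p2 j hj]
  p3 := fun j hj => by rw [Xi_sub, h.p3 j hj, h'.p3 j hj]
  p4 := fun j hj => by rw [Xi_sub, h.p4 j hj, h'.p4 j hj]
  p5 := fun j hj => by rw [Xi_sub, h.p5 j hj, h'.p5 j hj]
  p6 := fun j hj => by rw [Xi_sub, h.p6 j hj, h'.p6 j hj]
  p7 := fun j hj => by rw [Xi_sub, h.p7 j hj, h'.p7 j hj]
  p8 := fun j hj => by rw [Xi_sub, h.p8 j hj, h'.p8 j hj]
  p9 := fun j hj => by rw [Xi_sub, h.p9 j hj, h'.p9 j hj]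

/-- every map with the two conditions is of the form `Y + Λ1 + A Λ2 + Λ3 A`; the parameters can be
chosen with `g2 j = 0`, `z3 j = 0` for `2 j + 2 = d` -/
theorem exhaustU (h : Sys A B d a P d b Q) (β : K)
    (hrec : ∀ i, i + 3 ≤ d → a i - a (i + 3) = (β + 1) * (a (i + 1) - a (i + 2)))
    (hX : UP d P Q X) :
    ∃ (e f f' : ∀ j, LW d P Q j →ₗ[K] LW d P Q j)
      (g : ∀ j, LW d P Q j →ₗ[K] LW d P Q (j + 2)) (l : ∀ j, LW d P Q (j + 2) →ₗ[K] LW d P Q j)
      (g2 g3 : ∀ j, LW d P Q j →ₗ[K] LW d P Q (j + 1))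
      (z2 z3 : ∀ j, LW d P Q (j + 1) →ₗ[K] LW d P Q j) (Y Λ1 Λ2 Λ3 : Module.End K V),
      (∀ j, 2 * j + 2 = d → g2 j = 0 ∧ z3 j = 0) ∧
      YFml A d a β e f f' g l Y ∧ SL d P Q Λ1 ∧ Fml A d a P Q β (fun _ => 0) g2 z2 Λ2 ∧
      Fml A d a P Q β (fun _ => 0) g3 z3 Λ3 ∧ X = Y + Λ1 + A * Λ2 + Λ3 * A := by
  obtain ⟨c, hc⟩ := exists_IsCo h
  let v5 : ∀ j, LW d P Q j →ₗ[K] LW d P Q (j + 1) := fun j =>
    if 2 * j + 2 = d then (β + 1) • Xi A a c X j (j + 1) (j + 1) else Xi A a c X j (j + 1) (j + 2)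
  let v8 : ∀ j, LW d P Q (j + 1) →ₗ[K] LW d P Q j := fun j =>
    if 2 * j + 2 = d then (β + 1) • Xi A a c X (j + 1) j (d - j - 1) else
      Xi A a c X (j + 1) j (d - j - 2)
  obtain ⟨Y, Λ2, Λ3, hY, hΛ2, hΛ3, hp⟩ := exists_Pos h hc β hrec (fun j => Xi A a c X j j j)
    (fun j => Xi A a c X j j (j + 1)) (fun j => Xi A a c X j j (j + 2))
    (fun j => Xi A a c X j (j + 1) (j + 1)) v5
    (fun j => Xi A a c X j (j + 2) (j + 2)) (fun j => Xi A a c X (j + 1) j (d - j - 1))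
    v8 (fun j => Xi A a c X (j + 2) j (d - j - 2))
  have hX' : Pos A d a c (fun j => Xi A a c X j j j)
    (fun j => Xi A a c X j j (j + 1)) (fun j => Xi A a c X j j (j + 2))
    (fun j => Xi A a c X j (j + 1) (j + 1)) v5
    (fun j => Xi A a c X j (j + 2) (j + 2)) (fun j => Xi A a c X (j + 1) j (d - j - 1))
    v8 (fun j => Xi A a c X (j + 2) j (d - j - 2)) X := by
    refine ⟨fun _ _ => rfl, fun _ _ => rfl, fun _ _ => rfl, fun _ _ => rfl, fun j hj => ?_,
      fun _ _ => rfl, fun _ _ => rfl, fun j hj => ?_, fun _ _ => rfl⟩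
    · exact (if_neg (by omega)).symm
    · exact (if_neg (by omega)).symm
  have h2 := hX'.sub hp
  simp only [sub_self] at h2
  have hU : UP d P Q (Y + A * Λ2 + Λ3 * A) := by
    have := UP_all h (YFml.UP h β hrec _ _ _ _ _ hY) SL_zero (Fml.zeroSL h β hrec hΛ2)
      (Fml.zeroSL h β hrec hΛ3)
    rwa [add_zero] at this
  have h3 := Pos.SL h hc β hrec (hX.sub hU) h2
  refine ⟨_, _, _, _, _, _, _, _, _, Y, X - (Y + A * Λ2 + Λ3 * A), Λ2, Λ3, fun j hj => ?_, hY, h3,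
    hΛ2, hΛ3, ?_⟩
  · constructor
    · show v5 j - (β + 1) • Xi A a c X j (j + 1) (j + 1) = 0
      have : v5 j = (β + 1) • Xi A a c X j (j + 1) (j + 1) := if_pos hj
      rw [this, sub_self]
    · show v8 j - (β + 1) • Xi A a c X (j + 1) j (d - j - 1) = 0
      have : v8 j = (β + 1) • Xi A a c X (j + 1) j (d - j - 1) := if_pos hj
      rw [this, sub_self]
  · abel

end Pool.Agent.U50.TDU
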