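import Pool.Agent.U50.TDU6
import Pool.Agent.R841.TD.Dim

/-! The final form of the description: parameters, uniqueness, dimension. -/

set_option autoImplicit false

namespace Pool.Agent.U50.TDU

open Polynomial Module Pool.Agent.Helper9.TD Pool.Agent.R841.TD
open Pool.Agent.U50.TDA (A_str str_top FI_le)

variable {K : Type*} [Field K] {V : Type*} [AddCommGroup V] [Module K V]

/-- `X V*_i ⊆ V*_0 + ⋯ + V*_i` and `X V_i ⊆ V_{i-1} + V_i + V_{i+1}` for `0 ≤ i ≤ d`. -/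
def IsUpper (A B : Module.End K V) (d : ℕ) (a b : ℕ → K) (X : Module.End K V) : Prop :=
  (∀ i ≤ d, ∀ v ∈ B.eigenspace (b i), X v ∈ ⨆ (k : ℕ) (_ : k ≤ i), B.eigenspace (b k)) ∧
  (∀ i ≤ d, ∀ v ∈ A.eigenspace (a i),
    X v ∈ ⨆ (k : ℕ) (_ : k ≤ d ∧ k ≤ i + 1 ∧ i ≤ k + 1), A.eigenspace (a k))

/-- The space of all `X` with `IsUpper`. -/
def Upper (A B : Module.End K V) (d : ℕ) (a b : ℕ → K) : Submodule K (Module.End K V) where
  carrier := {X | IsUpper A B d a b X}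
  add_mem' := fun h h' =>
    ⟨fun i hi v hv => Submodule.add_mem _ (h.1 i hi v hv) (h'.1 i hi v hv),
      fun i hi v hv => Submodule.add_mem _ (h.2 i hi v hv) (h'.2 i hi v hv)⟩
  zero_mem' := ⟨fun _ _ _ _ => Submodule.zero_mem _, fun _ _ _ _ => Submodule.zero_mem _⟩
  smul_mem' := fun c _ h => ⟨fun i hi v hv => Submodule.smul_mem _ c (h.1 i hi v hv),
    fun i hi v hv => Submodule.smul_mem _ c (h.2 i hi v hv)⟩

/-- `(A - c) v` -/
def lin (A : Module.End K V) (c : K) (v : V) : V := A v - c • v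

/-- The formula for `Y` on the vectors `τ_{j,s} q`, `q ∈ L_j`. -/
def FormulaY (A : Module.End K V) (d : ℕ) (a : ℕ → K) (β : K) {L : ℕ → Submodule K V}
    (e f f' : Fam L L) (g : Fam L (fun j => L (j + 2))) (l : Fam (fun j => L (j + 2)) L)
    (Y : Module.End K V) : Prop :=
  ∀ j s, 2 * j + s ≤ d → ∀ q : L j, Y (tau A a j s q) =
    tau A a j s (ap e j q) +
    TT β s • lin A (a (d - j)) (tau A a j (s - 1) (ap f j q)) +
    TT β (s - 1) • lin A (a (d - j)) (tau A a j (s - 1) (ap f' j q)) +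
    TT β (s - 1) • tau A a (j + 1) (s - 2) (ap g j q) +
    TT β (d + 1 - 2 * j - s) • lin A (a (d + 2 - j)) (tau A a (j - 2) (s + 1) (l2 l j q))

/-- The parameters. -/
structure UPar (L : ℕ → Submodule K V) where
  /-- `e_j : L_j → L_j` -/
  e : Fam L L
  /-- `f_j : L_j → L_j` -/
  f : Fam L L
  /-- `f'_j : L_j → L_j` -/
  f' : Fam L L
  /-- `g_j : L_j → L_{j+2}` -/
  g : Fam L (fun j => L (j + 2))
  /-- `l_j : L_{j+2} → L_j` -/
  l : Fam (fun j => L (j + 2)) L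
  /-- the parameters of `Λ_1` -/
  f₁ : Fam L L
  /-- the parameters of `Λ_1` -/
  g₁ : Fam L (fun j => L (j + 1))
  /-- the parameters of `Λ_1` -/
  h₁ : Fam (fun j => L (j + 1)) L
  /-- the parameters of `Λ_2` -/
  g₂ : Fam L (fun j => L (j + 1))
  /-- the parameters of `Λ_2` -/
  h₂ : Fam (fun j => L (j + 1)) L
  /-- the parameters of `Λ_3` -/
  g₃ : Fam L (fun j => L (j + 1))
  /-- the parameters of `Λ_3` -/
  h₃ : Fam (fun j => L (j + 1)) L

/-- `X = Y + Λ_1 + A Λ_2 + Λ_3 A` with the parameters `p`; `Λ_i` is the lowering map with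
parameters `f_i, g_i, h_i`, where `f_2 = f_3 = 0`. -/
def IsX (A : Module.End K V) (d : ℕ) (a : ℕ → K) (β : K) {L : ℕ → Submodule K V} (p : UPar L)
    (X : Module.End K V) : Prop :=
  ∃ Y Λ₁ Λ₂ Λ₃ : Module.End K V, FormulaY A d a β p.e p.f p.f' p.g p.l Y ∧
    Formula A d a β p.f₁ p.g₁ p.h₁ Λ₁ ∧ Formula A d a β (fun _ => 0) p.g₂ p.h₂ Λ₂ ∧
    Formula A d a β (fun _ => 0) p.g₃ p.h₃ Λ₃ ∧ X = Y + Λ₁ + A * Λ₂ + Λ₃ * A

/-- normalized parameters: `g_2` and `h_3` vanish at `j` if `2 j + 2 = d` -/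
def Normal (d : ℕ) {L : ℕ → Submodule K V} (p : UPar L) : Prop :=
  ∀ j, 2 * j + 2 = d → p.g₂ j = 0 ∧ p.h₃ j = 0

/-- the parameters agree wherever they matter -/
def Same (d : ℕ) {L : ℕ → Submodule K V} (p p' : UPar L) : Prop :=
  (∀ j, 2 * j ≤ d → p.e j = p'.e j) ∧
  (∀ j, 2 * j + 1 ≤ d → p.f j = p'.f j ∧ p.f₁ j = p'.f₁ j) ∧
  (∀ j, 2 * j + 2 ≤ d → p.f' j = p'.f' j ∧ p.g₁ j = p'.g₁ j ∧ p.h₁ j = p'.h₁ j ∧
    p.h₂ j = p'.h₂ j ∧ p.g₃ j = p'.g₃ j) ∧
  (∀ j, 2 * j + 3 ≤ d → p.g₂ j = p'.g₂ j ∧ p.h₃ j = p'.h₃ j) ∧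
  (∀ j, 2 * j + 4 ≤ d → p.g j = p'.g j ∧ p.l j = p'.l j)

/-- Every family of parameters defines exactly one `X`, and this `X` satisfies the conditions. -/
def ProducesU (A B : Module.End K V) (d : ℕ) (a b : ℕ → K) (β : K) : Prop :=
  ∀ p : UPar (Low A B d a b), (∃! X, IsX A d a β p X) ∧
    ∀ X, IsX A d a β p X → IsUpper A B d a b X

/-- Every `X` with the two conditions comes from normalized parameters. -/
def ExhaustsU (A B : Module.End K V) (d : ℕ) (a b : ℕ → K) (β : K) : Prop :=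
  ∀ X, IsUpper A B d a b X → ∃ p : UPar (Low A B d a b), Normal d p ∧ IsX A d a β p X

/-- The normalized parameters are determined by `X`. -/
def FaithfulU (A B : Module.End K V) (d : ℕ) (a b : ℕ → K) (β : K) : Prop :=
  ∀ (p p' : UPar (Low A B d a b)) (X : Module.End K V), Normal d p → Normal d p' →
    IsX A d a β p X → IsX A d a β p' X → Same d p p'

/-- the dimension of the space of all `X` -/
def DimUpper (A B : Module.End K V) (d : ℕ) (a b : ℕ → K) : Prop :=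
  finrank K (Upper A B d a b) =
    ∑ j ∈ Finset.range (d / 2 + 1), finrank K (Low A B d a b j) ^ 2 +
    2 * ∑ j ∈ Finset.range ((d + 1) / 2), finrank K (Low A B d a b j) ^ 2 +
    ∑ j ∈ Finset.range (d / 2), finrank K (Low A B d a b j) ^ 2 +
    4 * ∑ j ∈ Finset.range (d / 2),
      finrank K (Low A B d a b j) * finrank K (Low A B d a b (j + 1)) +
    2 * ∑ j ∈ Finset.range ((d - 1) / 2),
      finrank K (Low A B d a b j) * finrank K (Low A B d a b (j + 1)) +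
    2 * ∑ j ∈ Finset.range ((d - 2) / 2),
      finrank K (Low A B d a b j) * finrank K (Low A B d a b (j + 2))

variable {A B : Module.End K V} {d : ℕ} {a b : ℕ → K} {P Q : ℕ → Module.End K V}
  {X : Module.End K V}

theorem isUpper_iff (iA : Idem A d a P) (iB : Idem B d b Q) (X : Module.End K V) :
    IsUpper A B d a b X ↔ UP d P Q X := by
  constructor
  · rintro ⟨h1, h2⟩
    refine ⟨fun i hi k hk hik v => ?_, fun i hi k hk hik v => ?_⟩
    · have h3 := h1 i hi (Q i v) (by rw [Module.End.mem_eigenspace_iff]; exact iB.eig i hi v)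
      rw [mem_iSup_iff iB _ (fun k hk => by omega)] at h3
      exact h3 k hk (by omega)
    · have h3 := h2 i hi (P i v) (by rw [Module.End.mem_eigenspace_iff]; exact iA.eig i hi v)
      rw [mem_iSup_iff iA _ (fun k hk => hk.1)] at h3
      exact h3 k hk (by omega)
  · rintro ⟨h1, h2⟩
    refine ⟨fun i hi v hv => ?_, fun i hi v hv => ?_⟩
    · rw [Module.End.mem_eigenspace_iff] at hv
      rw [mem_iSup_iff iB _ (fun k hk => by omega)]
      intro k hk hki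
      rw [← iB.mem i hi v hv]
      exact h1 i hi k hk (by omega) v
    · rw [Module.End.mem_eigenspace_iff] at hv
      rw [mem_iSup_iff iA _ (fun k hk => hk.1)]
      intro k hk hki
      rw [← iA.mem i hi v hv]
      exact h2 i hi k hk (by omega) v

theorem formulaY_iff (β : K) {L : ℕ → Submodule K V} (e f f' : Fam L L)
    (g : Fam L (fun j => L (j + 2))) (l : Fam (fun j => L (j + 2)) L) (Y : Module.End K V) :
    FormulaY A d a β e f f' g l Y ↔ YFml A d a β e f f' g l Y := by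
  have h1 : ∀ j s (q : L j), tau A a j s (ap e j q) +
      TT β s • lin A (a (d - j)) (tau A a j (s - 1) (ap f j q)) +
      TT β (s - 1) • lin A (a (d - j)) (tau A a j (s - 1) (ap f' j q)) +
      TT β (s - 1) • tau A a (j + 1) (s - 2) (ap g j q) +
      TT β (d + 1 - 2 * j - s) • lin A (a (d + 2 - j)) (tau A a (j - 2) (s + 1) (l2 l j q)) =
      YF A d a β j s (e j q) (f j q) (f' j q) (g j q) (l2 l j q) := by
    intro j s q
    rw [YF, aeval_lin, aeval_lin, aeval_lin]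
    rfl
  constructor
  · intro h j s hjs q
    rw [← h1]
    exact h j s hjs q
  · intro h j s hjs q
    rw [h1]
    exact h j s hjs q

theorem YFml.ext (h : Sys A B d a P d b Q) {β : K} {e f f' : Fam (LW d P Q) (LW d P Q)}
    {g : Fam (LW d P Q) (fun j => LW d P Q (j + 2))} {l : Fam (fun j => LW d P Q (j + 2)) (LW d P Q)}
    {Y Y' : Module.End K V} (hY : YFml A d a β e f f' g l Y)
    (hY' : YFml A d a β e f f' g l Y') : Y = Y' :=
  Sys.map_ext h Y Y' fun j s hjs q hq => (hY j s hjs ⟨q, hq⟩).trans (hY' j s hjs ⟨q, hq⟩).symm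

theorem Fml.ext (h : Sys A B d a P d b Q) {β : K} {f : Fam (LW d P Q) (LW d P Q)}
    {g : Fam (LW d P Q) (fun j => LW d P Q (j + 1))} {z : Fam (fun j => LW d P Q (j + 1)) (LW d P Q)}
    {Y Y' : Module.End K V} (hY : Fml A d a P Q β f g z Y)
    (hY' : Fml A d a P Q β f g z Y') : Y = Y' :=
  Sys.map_ext h Y Y' fun j s hjs q hq => (hY j s hjs ⟨q, hq⟩).trans (hY' j s hjs ⟨q, hq⟩).symm

theorem isX_iff (β : K) (p : UPar (LW d P Q)) (X : Module.End K V) :
    IsX A d a β p X ↔ ∃ Y Λ₁ Λ₂ Λ₃ : Module.End K V, YFml A d a β p.e p.f p.f' p.g p.l Y ∧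
      Fml A d a P Q β p.f₁ p.g₁ p.h₁ Λ₁ ∧ Fml A d a P Q β (fun _ => 0) p.g₂ p.h₂ Λ₂ ∧
      Fml A d a P Q β (fun _ => 0) p.g₃ p.h₃ Λ₃ ∧ X = Y + Λ₁ + A * Λ₂ + Λ₃ * A := by
  unfold IsX
  simp only [formulaY_iff, formula_iff]

theorem producesU (h : Sys A B d a P d b Q) (L : ℕ → Submodule K V) (hL : L = LW d P Q)
    (β : K) (hrec : Recur d a β) (p : UPar L) :
    (∃! X, IsX A d a β p X) ∧ ∀ X, IsX A d a β p X → UP d P Q X := by
  subst hL
  obtain ⟨Y, hY⟩ := Sys.exists_Y h β p.e p.f p.f' p.g p.l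
  obtain ⟨Λ1, h1⟩ := Sys.exists_X h β p.f₁ p.g₁ p.h₁
  obtain ⟨Λ2, h2⟩ := Sys.exists_X h β (fun _ => 0) p.g₂ p.h₂
  obtain ⟨Λ3, h3⟩ := Sys.exists_X h β (fun _ => 0) p.g₃ p.h₃
  refine ⟨⟨Y + Λ1 + A * Λ2 + Λ3 * A, (isX_iff β p _).mpr ⟨Y, Λ1, Λ2, Λ3, hY, h1, h2, h3, rfl⟩,
    fun X' hX' => ?_⟩, fun X' hX' => ?_⟩
  · obtain ⟨Y', Λ1', Λ2', Λ3', hY', h1', h2', h3', rfl⟩ := (isX_iff β p _).mp hX'
    rw [YFml.ext h hY hY', Fml.ext h h1 h1', Fml.ext h h2 h2', Fml.ext h h3 h3']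
  · obtain ⟨Y', Λ1', Λ2', Λ3', hY', h1', h2', h3', rfl⟩ := (isX_iff β p _).mp hX'
    exact UP_all h (YFml.UP h β hrec _ _ _ _ _ hY') (Fml.zeroSL h β hrec h1')
      (Fml.zeroSL h β hrec h2') (Fml.zeroSL h β hrec h3')

theorem exhaustsU (h : Sys A B d a P d b Q) (L : ℕ → Submodule K V) (hL : L = LW d P Q)
    (β : K) (hrec : Recur d a β) (hX : UP d P Q X) :
    ∃ p : UPar L, Normal d p ∧ IsX A d a β p X := by
  subst hL
  obtain ⟨e, f, f', g, l, g2, g3, z2, z3, Y, Λ1, Λ2, Λ3, hn, hY, h1, h2, h3, hX'⟩ :=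
    exhaustU h β hrec hX
  obtain ⟨f1, g1, z1, hF⟩ := Sys.exists_Fml h β hrec h1
  exact ⟨⟨e, f, f', g, l, f1, g1, z1, g2, z2, g3, z3⟩, hn,
    (isX_iff β _ X).mpr ⟨Y, Λ1, Λ2, Λ3, hY, hF, h2, h3, hX'⟩⟩

theorem Lzero (h : Sys A B d a P d b Q) (j : ℕ) (hj : d < 2 * j) (x : LW d P Q j) : x = 0 :=
  Subtype.ext (Sys.LW_big h j (by omega) x x.2)

theorem faithfulU (h : Sys A B d a P d b Q) (L : ℕ → Submodule K V) (hL : L = LW d P Q)
    (β : K) (hrec : Recur d a β) (p p' : UPar L) (hn : Normal d p) (hn' : Normal d p')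
    (hp : IsX A d a β p X) (hp' : IsX A d a β p' X) : Same d p p' := by
  subst hL
  obtain ⟨Y, Λ1, Λ2, Λ3, hY, h1, h2, h3, rfl⟩ := (isX_iff β p X).mp hp
  obtain ⟨Y', Λ1', Λ2', Λ3', hY', h1', h2', h3', hXX⟩ := (isX_iff β p' _).mp hp'
  obtain ⟨c, hc⟩ := exists_IsCo h
  have k1 := Pos_all h hc β hY (Fml.zeroSL h β hrec h1) h2 h3 (Fml.zeroSL h β hrec h3)
  have k2 := Pos_all h hc β hY' (Fml.zeroSL h β hrec h1') h2' h3' (Fml.zeroSL h β hrec h3')
  rw [← hXX] at k2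
  have e1 : ∀ j, 2 * j ≤ d → p.e j = p'.e j := fun j hj => (k1.p1 j hj).symm.trans (k2.p1 j hj)
  have e2 : ∀ j, 2 * j + 1 ≤ d → p.f j = p'.f j := by
    intro j hj
    have h4 := (k1.p2 j hj).symm.trans (k2.p2 j hj)
    rw [e1 j (by omega)] at h4
    exact add_left_cancel h4
  have e3 : ∀ j, 2 * j + 2 ≤ d → p.f' j = p'.f' j := by
    intro j hj
    have h4 := (k1.p3 j hj).symm.trans (k2.p3 j hj)
    rw [e1 j (by omega), e2 j (by omega)] at h4
    exact add_left_cancel h4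
  have e4 : ∀ j, 2 * j + 2 ≤ d → p.g₃ j = p'.g₃ j := fun j hj =>
    (k1.p4 j hj).symm.trans (k2.p4 j hj)
  have e5 : ∀ j, 2 * j + 3 ≤ d → p.g₂ j = p'.g₂ j := by
    intro j hj
    have h4 := (k1.p5 j hj).symm.trans (k2.p5 j hj)
    rw [e4 j (by omega)] at h4
    exact add_right_cancel h4
  have e6 : ∀ j, 2 * j + 4 ≤ d → p.g j = p'.g j := fun j hj =>
    (k1.p6 j hj).symm.trans (k2.p6 j hj)
  have e7 : ∀ j, 2 * j + 2 ≤ d → p.h₂ j = p'.h₂ j := fun j hj =>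
    (k1.p7 j hj).symm.trans (k2.p7 j hj)
  have e8 : ∀ j, 2 * j + 3 ≤ d → p.h₃ j = p'.h₃ j := by
    intro j hj
    have h4 := (k1.p8 j hj).symm.trans (k2.p8 j hj)
    rw [e7 j (by omega)] at h4
    exact add_left_cancel h4
  have e9 : ∀ j, 2 * j + 4 ≤ d → p.l j = p'.l j := fun j hj =>
    (k1.p9 j hj).symm.trans (k2.p9 j hj)
  -- `Y = Y'`
  have hYY : Y = Y' := by
    refine Sys.map_ext h Y Y' fun j s hjs q hq => ?_
    rw [hY j s hjs ⟨q, hq⟩, hY' j s hjs ⟨q, hq⟩, YF, YF]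
    congr 1
    · congr 1
      · congr 1
        · congr 1
          · rw [e1 j (by omega)]
          · rcases Nat.eq_zero_or_pos s with hs | hs
            · rw [hs, TT0, zero_smul, zero_smul]
            · rw [e2 j (by omega)]
        · rcases Nat.lt_or_ge s 2 with hs | hs
          · rw [TT_le_one β s (by omega), zero_smul, zero_smul]
          · rw [e3 j (by omega)]
      · rcases Nat.lt_or_ge s 2 with hs | hs
        · rw [TT_le_one β s (by omega), zero_smul, zero_smul]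
        · by_cases hj : 2 * j + 4 ≤ d
          · rw [e6 j hj]
          · rw [Lzero h (j + 2) (by omega) (p.g j ⟨q, hq⟩),
              Lzero h (j + 2) (by omega) (p'.g j ⟨q, hq⟩)]
    · have : l2 p.l j ⟨q, hq⟩ = l2 p'.l j ⟨q, hq⟩ := by
        rcases j with _ | _ | j
        · rfl
        · rfl
        · show ((p.l j ⟨q, hq⟩ : LW d P Q j) : V) = (p'.l j ⟨q, hq⟩ : LW d P Q j)
          rw [e9 j (by omega)]
      rw [this]
  have h22 : Λ2 = Λ2' := by
    refine Sys.map_ext h Λ2 Λ2' fun j s hjs q hq => ?_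
    rw [h2 j s hjs ⟨q, hq⟩, h2' j s hjs ⟨q, hq⟩]
    congr 1
    · congr 1
      rcases Nat.lt_or_ge s 2 with hs | hs
      · rw [TT_le_one β s (by omega), zero_smul, zero_smul]
      · by_cases hj : 2 * j + 3 ≤ d
        · rw [e5 j hj]
        · rw [(hn j (by omega)).1, (hn' j (by omega)).1]
    · have : zV p.h₂ j ⟨q, hq⟩ = zV p'.h₂ j ⟨q, hq⟩ := by
        rcases j with _ | j
        · rfl
        · show ((p.h₂ j ⟨q, hq⟩ : LW d P Q j) : V) = (p'.h₂ j ⟨q, hq⟩ : LW d P Q j)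
          rw [e7 j (by omega)]
      rw [this]
  have h33 : Λ3 = Λ3' := by
    refine Sys.map_ext h Λ3 Λ3' fun j s hjs q hq => ?_
    rw [h3 j s hjs ⟨q, hq⟩, h3' j s hjs ⟨q, hq⟩]
    congr 1
    · congr 1
      rcases Nat.lt_or_ge s 2 with hs | hs
      · rw [TT_le_one β s (by omega), zero_smul, zero_smul]
      · rw [e4 j (by omega)]
    · have : zV p.h₃ j ⟨q, hq⟩ = zV p'.h₃ j ⟨q, hq⟩ := by
        rcases j with _ | j
        · rfl
        · show ((p.h₃ j ⟨q, hq⟩ : LW d P Q j) : V) = (p'.h₃ j ⟨q, hq⟩ : LW d P Q j)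
          by_cases hj : 2 * j + 3 ≤ d
          · rw [e8 j hj]
          · rw [(hn j (by omega)).2, (hn' j (by omega)).2]
      rw [this]
  have h11 : Λ1 = Λ1' := by
    rw [hYY, h22, h33] at hXX
    have h4 := add_right_cancel (add_right_cancel hXX)
    exact add_left_cancel h4
  rw [← h11] at h1'
  obtain ⟨u1, u2, u3⟩ := Fml.unique h β hrec _ _ _ _ _ _ h1 h1'
  exact ⟨e1, fun j hj => ⟨e2 j hj, u1 j hj⟩,
    fun j hj => ⟨e3 j hj, u2 j hj, u3 j hj, e7 j hj, e4 j hj⟩, fun j hj => ⟨e5 j hj, e8 j hj⟩,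
    fun j hj => ⟨e6 j hj, e9 j hj⟩⟩

theorem mainU (hA : TDOrdering A B d a) (hB : TDOrdering B A d b) (irred : Irred A B) :
    ∀ β : K, Recur d a β →
      ProducesU A B d a b β ∧ ExhaustsU A B d a b β ∧ FaithfulU A B d a b β := by
  have h := TDOrdering.sys hA hB irred
  have hL := Low_eq h.iA h.iB
  have hS := isUpper_iff h.iA h.iB
  refine fun β hβ => ⟨fun p => ?_, fun X hX => exhaustsU h _ hL β hβ ((hS X).mp hX),
    fun p p' X hn hn' hF hF' => faithfulU h _ hL β hβ p p' hn hn' hF hF'⟩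
  obtain ⟨h1, h2⟩ := producesU h _ hL β hβ p
  exact ⟨h1, fun X hX => (hS X).mpr (h2 X hX)⟩

end Pool.Agent.U50.TDU
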