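import Pool.Agent.U50.TDU7

/-! The dimension of the space. -/

set_option autoImplicit false

namespace Pool.Agent.U50.TDU

open Polynomial Module Pool.Agent.Helper9.TD Pool.Agent.R841.TD
open Pool.Agent.U50.TDA (A_str str_top FI_le)

variable {K : Type*} [Field K] {V : Type*} [AddCommGroup V] [Module K V]

variable {A B : Module.End K V} {d : ℕ} {a b : ℕ → K} {P Q : ℕ → Module.End K V}
  {X : Module.End K V} {c : ∀ k : ℕ, ℕ → (V →ₗ[K] LW d P Q k)}

/-- the space of values -/
abbrev Val (L : ℕ → Submodule K V) (d : ℕ) : Type _ :=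
  (∀ j : Fin (d / 2 + 1), L j →ₗ[K] L j) × (∀ j : Fin ((d + 1) / 2), L j →ₗ[K] L j) ×
  (∀ j : Fin (d / 2), L j →ₗ[K] L j) × (∀ j : Fin (d / 2), L j →ₗ[K] L (j + 1)) ×
  (∀ j : Fin ((d - 1) / 2), L j →ₗ[K] L (j + 1)) ×
  (∀ j : Fin ((d - 2) / 2), L j →ₗ[K] L (j + 2)) ×
  (∀ j : Fin (d / 2), L (j + 1) →ₗ[K] L j) × (∀ j : Fin ((d - 1) / 2), L (j + 1) →ₗ[K] L j) ×
  (∀ j : Fin ((d - 2) / 2), L (j + 2) →ₗ[K] L j)

/-- `X ↦ Xi X` as a linear map -/
noncomputable def XiL (A : Module.End K V) (a : ℕ → K) (c : ∀ k : ℕ, ℕ → (V →ₗ[K] LW d P Q k))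
    (j k i : ℕ) : Module.End K V →ₗ[K] (LW d P Q j →ₗ[K] LW d P Q k) where
  toFun X := Xi A a c X j k i
  map_add' X X' := Xi_add X X' j k i
  map_smul' t X := by
    refine LinearMap.ext fun q => ?_
    rw [RingHom.id_apply, LinearMap.smul_apply, Xi_apply, Xi_apply, LinearMap.smul_apply, map_smul]

/-- the nine values as a linear map -/
noncomputable def PhiU (A : Module.End K V) (a : ℕ → K) (c : ∀ k : ℕ, ℕ → (V →ₗ[K] LW d P Q k)) :
    Module.End K V →ₗ[K] Val (LW d P Q) d :=
  (LinearMap.pi fun j : Fin (d / 2 + 1) => XiL A a c j j j).prod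
  ((LinearMap.pi fun j : Fin ((d + 1) / 2) => XiL A a c j j (j + 1)).prod
  ((LinearMap.pi fun j : Fin (d / 2) => XiL A a c j j (j + 2)).prod
  ((LinearMap.pi fun j : Fin (d / 2) => XiL A a c j (j + 1) (j + 1)).prod
  ((LinearMap.pi fun j : Fin ((d - 1) / 2) => XiL A a c j (j + 1) (j + 2)).prod
  ((LinearMap.pi fun j : Fin ((d - 2) / 2) => XiL A a c j (j + 2) (j + 2)).prod
  ((LinearMap.pi fun j : Fin (d / 2) => XiL A a c (j + 1) j (d - j - 1)).prod
  ((LinearMap.pi fun j : Fin ((d - 1) / 2) => XiL A a c (j + 1) j (d - j - 2)).prod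
  (LinearMap.pi fun j : Fin ((d - 2) / 2) => XiL A a c (j + 2) j (d - j - 2)))))))))

theorem PhiU_apply (X : Module.End K V) : PhiU A a c X =
    (fun j : Fin (d / 2 + 1) => Xi A a c X j j j,
      fun j : Fin ((d + 1) / 2) => Xi A a c X j j (j + 1),
      fun j : Fin (d / 2) => Xi A a c X j j (j + 2),
      fun j : Fin (d / 2) => Xi A a c X j (j + 1) (j + 1),
      fun j : Fin ((d - 1) / 2) => Xi A a c X j (j + 1) (j + 2),
      fun j : Fin ((d - 2) / 2) => Xi A a c X j (j + 2) (j + 2),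
      fun j : Fin (d / 2) => Xi A a c X (j + 1) j (d - j - 1),
      fun j : Fin ((d - 1) / 2) => Xi A a c X (j + 1) j (d - j - 2),
      fun j : Fin ((d - 2) / 2) => Xi A a c X (j + 2) j (d - j - 2)) := rfl

theorem PhiU_zero (h : PhiU A a c X = 0) :
    Pos A d a c (fun _ => 0) (fun _ => 0) (fun _ => 0) (fun _ => 0) (fun _ => 0) (fun _ => 0)
      (fun _ => 0) (fun _ => 0) (fun _ => 0) X := by
  rw [PhiU_apply] at h
  simp only [Prod.mk_eq_zero, funext_iff, Pi.zero_apply] at h
  obtain ⟨h1, h2, h3, h4, h5, h6, h7, h8, h9⟩ := h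
  exact ⟨fun j hj => h1 ⟨j, by omega⟩, fun j hj => h2 ⟨j, by omega⟩, fun j hj => h3 ⟨j, by omega⟩,
    fun j hj => h4 ⟨j, by omega⟩, fun j hj => h5 ⟨j, by omega⟩, fun j hj => h6 ⟨j, by omega⟩,
    fun j hj => h7 ⟨j, by omega⟩, fun j hj => h8 ⟨j, by omega⟩, fun j hj => h9 ⟨j, by omega⟩⟩

/-- extension by zero -/
def ez {n : ℕ} {L L' : ℕ → Submodule K V} (w : ∀ j : Fin n, L j →ₗ[K] L' j) (j : ℕ) :
    L j →ₗ[K] L' j :=
  if hj : j < n then w ⟨j, hj⟩ else 0

theorem ez_fin {n : ℕ} {L L' : ℕ → Submodule K V} (w : ∀ j : Fin n, L j →ₗ[K] L' j) (j : Fin n) :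
    ez w j = w j := by
  unfold ez
  rw [dif_pos j.2]

theorem PhiU_surj (h : Sys A B d a P d b Q) (hc : IsCo A d a P Q c) (β : K)
    (hrec : Recur d a β) (w : Val (LW d P Q) d) :
    ∃ X : Module.End K V, UP d P Q X ∧ PhiU A a c X = w := by
  obtain ⟨w1, w2, w3, w4, w5, w6, w7, w8, w9⟩ := w
  obtain ⟨Y, Λ2, Λ3, hY, h2, h3, hp⟩ := exists_Pos h hc β hrec (ez w1) (ez w2) (ez w3)
    (ez (L' := fun j => LW d P Q (j + 1)) w4) (ez (L' := fun j => LW d P Q (j + 1)) w5)
    (ez (L' := fun j => LW d P Q (j + 2)) w6) (ez (L := fun j => LW d P Q (j + 1)) w7)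
    (ez (L := fun j => LW d P Q (j + 1)) w8) (ez (L := fun j => LW d P Q (j + 2)) w9)
  refine ⟨Y + A * Λ2 + Λ3 * A, ?_, ?_⟩
  · have := UP_all h (YFml.UP h β hrec _ _ _ _ _ hY) SL_zero (Fml.zeroSL h β hrec h2)
      (Fml.zeroSL h β hrec h3)
    rwa [add_zero] at this
  · rw [PhiU_apply]
    refine Prod.ext (funext fun j => ?_) (Prod.ext (funext fun j => ?_) (Prod.ext
      (funext fun j => ?_) (Prod.ext (funext fun j => ?_) (Prod.ext (funext fun j => ?_)
      (Prod.ext (funext fun j => ?_) (Prod.ext (funext fun j => ?_) (Prod.ext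
      (funext fun j => ?_) (funext fun j => ?_))))))))
    · exact (hp.p1 j (by have := j.2; omega)).trans (ez_fin w1 j)
    · exact (hp.p2 j (by have := j.2; omega)).trans (ez_fin w2 j)
    · exact (hp.p3 j (by have := j.2; omega)).trans (ez_fin w3 j)
    · exact (hp.p4 j (by have := j.2; omega)).trans (ez_fin (L' := fun j => LW d P Q (j + 1)) w4 j)
    · exact (hp.p5 j (by have := j.2; omega)).trans (ez_fin (L' := fun j => LW d P Q (j + 1)) w5 j)
    · exact (hp.p6 j (by have := j.2; omega)).trans (ez_fin (L' := fun j => LW d P Q (j + 2)) w6 j)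
    · exact (hp.p7 j (by have := j.2; omega)).trans (ez_fin (L := fun j => LW d P Q (j + 1)) w7 j)
    · exact (hp.p8 j (by have := j.2; omega)).trans (ez_fin (L := fun j => LW d P Q (j + 1)) w8 j)
    · exact (hp.p9 j (by have := j.2; omega)).trans (ez_fin (L := fun j => LW d P Q (j + 2)) w9 j)

theorem PhiU_SL (h : Sys A B d a P d b Q) (hc : IsCo A d a P Q c) (hX : SL d P Q X) :
    PhiU A a c X = 0 := by
  rw [PhiU_apply]
  refine Prod.ext (funext fun j => ?_) (Prod.ext (funext fun j => ?_) (Prod.ext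
      (funext fun j => ?_) (Prod.ext (funext fun j => ?_) (Prod.ext (funext fun j => ?_)
      (Prod.ext (funext fun j => ?_) (Prod.ext (funext fun j => ?_) (Prod.ext
      (funext fun j => ?_) (funext fun j => ?_))))))))
  all_goals
    have hj := j.2
    exact Xi_SL h hc hX _ _ _ (by omega) (by omega)

theorem finrank_upper [FiniteDimensional K V] (h : Sys A B d a P d b Q)
    (L : ℕ → Submodule K V) (hL : L = LW d P Q)
    (S T : Submodule K (Module.End K V)) (hS : ∀ X, X ∈ S ↔ UP d P Q X)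
    (hT : ∀ X, X ∈ T ↔ SL d P Q X) (β : K) (hrec : Recur d a β) :
    finrank K S = finrank K T + finrank K (Val L d) := by
  subst hL
  obtain ⟨c, hc⟩ := exists_IsCo h
  have hTS : T ≤ S := fun X hX => (hS X).mpr (UP.of_SL ((hT X).mp hX))
  let Φ : S →ₗ[K] Val (LW d P Q) d := PhiU A a c ∘ₗ S.subtype
  have hsurj : Function.Surjective Φ := by
    intro w
    obtain ⟨X, hX, hw⟩ := PhiU_surj h hc β hrec w
    exact ⟨⟨X, (hS X).mpr hX⟩, hw⟩
  have hker : LinearMap.ker Φ = T.comap S.subtype := by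
    ext X
    rw [LinearMap.mem_ker, Submodule.mem_comap, Submodule.subtype_apply, hT]
    constructor
    · intro h1
      exact Pos.SL h hc β hrec ((hS X).mp X.2) (PhiU_zero h1)
    · intro h1
      exact PhiU_SL h hc h1
  have h1 := LinearMap.finrank_range_add_finrank_ker Φ
  rw [LinearMap.range_eq_top.mpr hsurj, finrank_top, hker,
    (Submodule.comapSubtypeEquivOfLe hTS).finrank_eq] at h1
  rw [← h1, add_comm]

theorem finrank_prod9 (M1 M2 M3 M4 M5 M6 M7 M8 M9 : Type*) [AddCommGroup M1] [AddCommGroup M2]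
    [AddCommGroup M3] [AddCommGroup M4] [AddCommGroup M5] [AddCommGroup M6] [AddCommGroup M7]
    [AddCommGroup M8] [AddCommGroup M9] [Module K M1] [Module K M2] [Module K M3] [Module K M4]
    [Module K M5] [Module K M6] [Module K M7] [Module K M8] [Module K M9]
    [FiniteDimensional K M1] [FiniteDimensional K M2] [FiniteDimensional K M3]
    [FiniteDimensional K M4] [FiniteDimensional K M5] [FiniteDimensional K M6]
    [FiniteDimensional K M7] [FiniteDimensional K M8] [FiniteDimensional K M9] :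
    finrank K (M1 × M2 × M3 × M4 × M5 × M6 × M7 × M8 × M9) =
      finrank K M1 + (finrank K M2 + (finrank K M3 + (finrank K M4 + (finrank K M5 +
        (finrank K M6 + (finrank K M7 + (finrank K M8 + finrank K M9))))))) := by
  rw [finrank_prod, finrank_prod, finrank_prod, finrank_prod, finrank_prod, finrank_prod,
    finrank_prod, finrank_prod]

theorem Val_finrank [FiniteDimensional K V] (L : ℕ → Submodule K V) (d : ℕ) :
    finrank K (Val L d) =
      ∑ j ∈ Finset.range (d / 2 + 1), finrank K (L j) ^ 2 +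
      ∑ j ∈ Finset.range ((d + 1) / 2), finrank K (L j) ^ 2 +
      ∑ j ∈ Finset.range (d / 2), finrank K (L j) ^ 2 +
      2 * ∑ j ∈ Finset.range (d / 2), finrank K (L j) * finrank K (L (j + 1)) +
      2 * ∑ j ∈ Finset.range ((d - 1) / 2), finrank K (L j) * finrank K (L (j + 1)) +
      2 * ∑ j ∈ Finset.range ((d - 2) / 2), finrank K (L j) * finrank K (L (j + 2)) := by
  rw [finrank_prod9]
  simp only [finrank_pi_fintype, finrank_linearMap]
  have e1 : ∀ n, ∑ j : Fin n, finrank K (L j) * finrank K (L j) =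
      ∑ j ∈ Finset.range n, finrank K (L j) ^ 2 := by
    intro n
    rw [Finset.sum_range fun j => finrank K (L j) ^ 2]
    exact Finset.sum_congr rfl fun j _ => (sq _).symm
  have e2 : ∀ n m, ∑ j : Fin n, finrank K (L j) * finrank K (L (j + m)) =
      ∑ j ∈ Finset.range n, finrank K (L j) * finrank K (L (j + m)) := by
    intro n m
    rw [Finset.sum_range fun j => finrank K (L j) * finrank K (L (j + m))]
  have e3 : ∀ n m, ∑ j : Fin n, finrank K (L (j + m)) * finrank K (L j) =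
      ∑ j ∈ Finset.range n, finrank K (L j) * finrank K (L (j + m)) := by
    intro n m
    rw [← e2]
    exact Finset.sum_congr rfl fun j _ => mul_comm _ _
  rw [e1, e1, e1, e2, e2, e2, e3, e3, e3]
  ring

theorem mainU_dim [FiniteDimensional K V] (hA : TDOrdering A B d a) (hB : TDOrdering B A d b)
    (irred : Irred A B) : DimUpper A B d a b := by
  have h := TDOrdering.sys hA hB irred
  have hL := Low_eq h.iA h.iB
  obtain ⟨β, hβ⟩ := rec_a h
  have h1 := finrank_upper h _ hL (Upper A B d a b) (Lowering A B d a b)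
    (fun X => isUpper_iff h.iA h.iB X) (fun X => mem_Lowering_iff h.iA h.iB X) β hβ
  have h2 := (main_dim hA hB irred).1
  unfold DimLowering at h2
  unfold DimUpper
  rw [h1, h2, Val_finrank]
  ring

end Pool.Agent.U50.TDU
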